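import Pool.Agent.SprP.Defs

/-!
# Analysis of the cell, with coefficients (MP_3a0658_ag)   (helper8)
-/

set_option autoImplicit false
set_option linter.unusedSectionVars false

open Matrix

namespace Pool.Agent.SprP

open Pool.Agent.SprJ hiding S_Lay S_Tr S_An S_Cur S_Pts Lay_ex
open Pool.Agent.SprF hiding S_Lay S_Tr S_An S_Cur S_Pts

section An

variable {I C : Type} [Fintype I] [Fintype C] [DecidableEq I] [DecidableEq C]
  {sY sZ : I → C → Prop} {Sg : I → I → Prop} {m₂ m₁ n : ℕ} {V : LevF sY sZ Sg m₂ m₁}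
  (L : LayF V n) {K : Type} [Field K] {U : Matrix (Lab (m₂ + m₁) I C) (Lab (m₂ + m₁) I C) K}

/-- the displacement at the transition -/
def shK (κ : C → I → K) (x : Lb I C → K) : Lb I C → K
  | .c y => x (.c y) + ∑ i, κ y i * x (.a i)
  | q => x q

lemma sum_Lb' {M : Type*} [AddCommMonoid M] (f : Lb I C → M) :
    ∑ q, f q = (∑ i, f (.a i) + ∑ x, f (.c x)) + (∑ i, f (.c' i) + ∑ i, f (.d i)) := by
  rw [← (Lb.equivSum I C).symm.sum_comp, Fintype.sum_sum_type, Fintype.sum_sum_type,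
    Fintype.sum_sum_type]
  rfl

lemma NK_mulVec {m : ℕ} (κ : C → I → K) (y : Lab m I C → K) (t : Fin m) (q : Lb I C)
    (h : (t : ℕ) + 1 < m) :
    (NK m₂ m κ *ᵥ y) (t, q) = if (t : ℕ) + 1 = m₂ then
      ∑ p, kp κ q p * y (⟨(t : ℕ) + 1, h⟩, p) else 0 := by
  unfold Matrix.mulVec dotProduct
  rw [Fintype.sum_prod_type, Finset.sum_eq_single (⟨(t : ℕ) + 1, h⟩ : Fin m)]
  · simp only [NK]
    by_cases h2 : (t : ℕ) + 1 = m₂
    · rw [if_pos h2]
      refine Finset.sum_congr rfl fun p _ => ?_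
      rw [if_pos ⟨trivial, h2⟩]
    · rw [if_neg h2]
      refine Finset.sum_eq_zero fun p _ => ?_
      rw [if_neg (fun h => h2 h.2), zero_mul]
  · intro t' _ hne
    refine Finset.sum_eq_zero fun p _ => ?_
    have : ¬ ((t : ℕ) + 1 = (t' : ℕ) ∧ (t' : ℕ) = m₂) := by
      rintro ⟨h1, -⟩
      exact hne (Fin.ext h1.symm)
    simp only [NK]
    rw [if_neg this, zero_mul]
  · simp

lemma NK_mulVec_top {m : ℕ} (κ : C → I → K) (y : Lab m I C → K) (t : Fin m) (q : Lb I C)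
    (h : ¬ ((t : ℕ) + 1 < m)) : (NK m₂ m κ *ᵥ y) (t, q) = 0 := by
  unfold Matrix.mulVec dotProduct
  apply Finset.sum_eq_zero
  rintro ⟨t', q'⟩ _
  have : ¬ ((t : ℕ) + 1 = (t' : ℕ) ∧ (t' : ℕ) = m₂) := by
    rintro ⟨h1, -⟩
    have := t'.2
    omega
  simp only [NK]
  rw [if_neg this, zero_mul]

lemma XK_mulVec {m : ℕ} (κ : C → I → K) (y : Lab m I C → K) (t : Fin m) (q : Lb I C)
    (h : (t : ℕ) + 1 < m) :
    (XK m₂ m κ *ᵥ y) (t, q) = (if (t : ℕ) + 1 = m₂ then
      shK κ (fun q => y (⟨(t : ℕ) + 1, h⟩, q)) q else y (⟨(t : ℕ) + 1, h⟩, q)) := by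
  rw [XK, Matrix.add_mulVec, Pi.add_apply, XL_mulVec _ _ _ h, NK_mulVec _ _ _ _ h]
  split_ifs with h1
  · rw [sum_Lb']
    cases q <;> simp [shK, kp]
  · rw [add_zero]

lemma XK_mulVec_top {m : ℕ} (κ : C → I → K) (y : Lab m I C → K) (t : Fin m) (q : Lb I C)
    (h : ¬ ((t : ℕ) + 1 < m)) : (XK m₂ m κ *ᵥ y) (t, q) = 0 := by
  rw [XK, Matrix.add_mulVec, Pi.add_apply, XL_mulVec_top _ _ _ h, NK_mulVec_top _ _ _ _ h, add_zero]

lemma FF_stepK (κ : C → I → K) (hU : ∀ a k, L.idx k < L.idx a → U a k = 0) (hUd : ∀ k, U k k ≠ 0)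
    {Z : Matrix (Lab (m₂ + m₁) I C) (Lab (m₂ + m₁) I C) K}
    (hZ : ∀ l k, L.pos k < L.pos l → Z l k = 0) (hXU : XK m₂ (m₂ + m₁) κ * U = U * Z)
    {t t' : Fin (m₂ + m₁)} (ht : (t' : ℕ) + 1 = (t : ℕ)) {x : Lb I C → K} (hx : x ∈ FF U t) :
    (if (t : ℕ) = m₂ then shK κ x else x) ∈ FF U t' := by
  obtain ⟨μ, hμ, hμx⟩ := hx
  have hmv : U *ᵥ (Z *ᵥ μ) = XK m₂ (m₂ + m₁) κ *ᵥ (U *ᵥ μ) := by
    rw [Matrix.mulVec_mulVec, ← hXU, ← Matrix.mulVec_mulVec]
  -- support of `Z μ`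
  have hsup : ∀ l, (Z *ᵥ μ) l ≠ 0 → early m₂ l ∧ l.1 ≤ t := by
    intro l hl
    obtain ⟨k, _, hk⟩ := Finset.exists_ne_zero_of_sum_ne_zero hl
    have hk1 := left_ne_zero_of_mul hk
    have hk2 := hμ k (right_ne_zero_of_mul hk)
    have hle : ¬ (L.pos k < L.pos l) := fun h => hk1 (hZ l k h)
    have he : early m₂ l := by
      by_contra hne
      exact hle (L.p1 k l hk2.1 hne)
    refine ⟨he, ?_⟩
    by_contra hlt
    push Not at hlt
    exact hle (L.p2 k l ⟨fun _ => he, fun _ => hk2.1⟩ (lt_of_le_of_lt hk2.2 hlt))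
  have htop : ∀ q, (U *ᵥ (Z *ᵥ μ)) (t, q) = 0 := by
    intro q
    rw [hmv]
    by_cases h : (t : ℕ) + 1 < m₂ + m₁
    · have h0 : ∀ q', (U *ᵥ μ) (⟨(t : ℕ) + 1, h⟩, q') = 0 := by
        intro q'
        apply mulVec_lt L hU
        intro k hk
        have h1 : k.1 < (⟨(t : ℕ) + 1, h⟩ : Fin (m₂ + m₁)) := by
          have h2 : (k.1 : ℕ) ≤ (t : ℕ) := (hμ k hk).2
          show (k.1 : ℕ) < (t : ℕ) + 1
          omega
        have := L.i1 k.1 _ k.2 q' h1
        simpa using this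
      rw [XK_mulVec _ _ _ _ h, h0]
      split_ifs
      · cases q <;> simp [shK, h0]
      · rfl
    · exact XK_mulVec_top _ _ _ _ h
  have hlow : ∀ l, (Z *ᵥ μ) l ≠ 0 → l.1 ≤ t' := by
    intro l hl
    have h1 := (hsup l hl).2
    have hne : l.1 ≠ t := by
      rintro h2
      obtain ⟨l0, h3, h4, h5⟩ := max_idx L hU hUd (Z *ᵥ μ) hl
      have h6 : l0.1 = t := by
        refine le_antisymm (hsup _ h3).2 ?_
        by_contra hlt
        push Not at hlt
        have h7 : L.idx l0 < L.idx l := by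
          have := L.i1 l0.1 l.1 l0.2 l.2 (by rw [h2]; exact hlt)
          simpa using this
        exact absurd (h4 l hl) (not_le.2 h7)
      obtain ⟨t0, q0⟩ := l0
      simp only at h6
      subst h6
      exact h5 (htop q0)
    have h2 : (l.1 : ℕ) ≤ (t : ℕ) := h1
    have h3 : (l.1 : ℕ) ≠ (t : ℕ) := fun e => hne (Fin.ext e)
    show (l.1 : ℕ) ≤ (t' : ℕ)
    omega
  refine ⟨Z *ᵥ μ, fun l hl => ⟨(hsup l hl).1, hlow l hl⟩, fun q => ?_⟩
  have hlt : (t' : ℕ) + 1 < m₂ + m₁ := by rw [ht]; exact t.2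
  have hx' : ∀ q, (U *ᵥ μ) (⟨(t' : ℕ) + 1, hlt⟩, q) = x q := by
    intro q
    rw [← hμx q]
    congr 2
    exact Fin.ext ht
  have hfun : (fun q => (U *ᵥ μ) (⟨(t' : ℕ) + 1, hlt⟩, q)) = x := funext hx'
  rw [hmv, XK_mulVec _ _ _ _ hlt, hfun, hx', ht]
  split_ifs <;> rfl

/-- descent which does not cross the transition -/
lemma FF_leK (κ : C → I → K) (hU : ∀ a k, L.idx k < L.idx a → U a k = 0) (hUd : ∀ k, U k k ≠ 0)
    {Z : Matrix (Lab (m₂ + m₁) I C) (Lab (m₂ + m₁) I C) K}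
    (hZ : ∀ l k, L.pos k < L.pos l → Z l k = 0) (hXU : XK m₂ (m₂ + m₁) κ * U = U * Z) (d : ℕ) :
    ∀ {t t' : Fin (m₂ + m₁)}, (t' : ℕ) + d = (t : ℕ) → (m₂ ≤ (t' : ℕ) ∨ (t : ℕ) < m₂) →
      ∀ {x : Lb I C → K}, x ∈ FF U t → x ∈ FF U t' := by
  induction d with
  | zero =>
    intro t t' h _ x hx
    have : t' = t := Fin.ext (by simpa using h)
    rw [this]; exact hx
  | succ d ih =>
    intro t t' h hm x hx
    have h1 : (t' : ℕ) + d < m₂ + m₁ := by have := t.2; omega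
    have h2 : (if (t : ℕ) = m₂ then shK κ x else x) ∈ FF U (⟨(t' : ℕ) + d, h1⟩ : Fin (m₂ + m₁)) :=
      FF_stepK L κ hU hUd hZ hXU (t := t) (by show (t' : ℕ) + d + 1 = (t : ℕ); omega) hx
    rw [if_neg (by omega)] at h2
    exact ih (t := ⟨(t' : ℕ) + d, h1⟩) rfl (by
      show m₂ ≤ (t' : ℕ) ∨ (t' : ℕ) + d < m₂
      omega) h2

end An

/-- **analysis of the cell** -/
theorem AnK : S_AnK := by
  intro I C _ _ _ _ sY sZ Sg m₂ m₁ n V L K _ κ hm2 hm1 U Z hU hUd hZ hXU hdet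
  classical
  -- levels
  let t2 : Fin (m₂ + m₁) := ⟨m₂ - 1, by omega⟩
  let t1 : Fin (m₂ + m₁) := ⟨m₂, by omega⟩
  let tl : Fin (m₂ + m₁) := ⟨m₂ + m₁ - 1, by omega⟩
  have hty2 : ty m₂ t2 = true := by
    simp only [ty, t2, decide_eq_true_eq]; omega
  have htyl : ty m₂ tl = false := by
    simp only [ty, tl, decide_eq_false_iff_not]; omega
  have down : ∀ {t t' : Fin (m₂ + m₁)}, (t' : ℕ) ≤ (t : ℕ) → (m₂ ≤ (t' : ℕ) ∨ (t : ℕ) < m₂) →
      ∀ {x : Lb I C → K}, x ∈ FF U t → x ∈ FF U t' := by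
    intro t t' h hm x hx
    exact FF_leK L κ hU hUd hZ hXU ((t : ℕ) - (t' : ℕ)) (by omega) hm hx
  -- echelon bases
  have e2 : ∀ p : Lb I C, ∃ x ∈ FF U t2, ∀ q, piv true q → x q = if q = p then 1 else 0 := by
    intro p
    obtain ⟨x, hx, hx'⟩ := FF_surj L hU hUd t2 (fun q => if q = p then 1 else 0)
    rw [hty2] at hx'
    exact ⟨x, hx, hx'⟩
  have e1 : ∀ i : I, ∃ x ∈ FF U tl, ∀ j : I, x (.a j) = if j = i then 1 else 0 := by
    intro i
    obtain ⟨x, hx, hx'⟩ := FF_surj L hU hUd tl (fun q => if q = .a i then 1 else 0)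
    rw [htyl] at hx'
    refine ⟨x, hx, fun j => ?_⟩
    rw [hx' (.a j) trivial]
    simp
  choose X2 hX2 hX2' using e2
  choose y hy hy' using e1
  -- prescribed zeros
  have z2 : ∀ p j, cond2 sZ Sg p (.d j) → X2 p (.d j) = 0 := by
    intro p j hc
    obtain ⟨t, ht, hlt⟩ := V.f2 _ _ hc
    have hty : ty m₂ t = true := by simp [ty, ht]
    have hm : X2 p ∈ FF U t := down (by show (t : ℕ) ≤ m₂ - 1; omega)
      (Or.inr (by show m₂ - 1 < m₂; omega)) (hX2 p)
    exact FF_be L hU hUd hm _ _ hlt (by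
      intro q hq hne
      rw [hty] at hq
      rw [hX2' p q hq, if_neg]
      exact hne)
  have z1 : ∀ i q, cond1 sY (.a i) q → y i q = 0 := by
    intro i q hc
    obtain ⟨t, ht, hlt⟩ := V.f1 _ _ hc
    have hty : ty m₂ t = false := by simp [ty, ht]
    have hm : y i ∈ FF U t := down (by show (t : ℕ) ≤ m₂ + m₁ - 1; have := t.2; omega)
      (Or.inl (by omega)) (hy i)
    exact FF_be L hU hUd hm _ _ hlt (by
      intro q' hq' hne
      rw [hty] at hq'
      cases q' with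
      | a j =>
        rw [hy' i j, if_neg]
        rintro rfl; exact hne rfl
      | c x => exact absurd hq' (by simp [piv])
      | c' j => exact absurd hq' (by simp [piv])
      | d j => exact absurd hq' (by simp [piv]))
  -- the first vectors at the level below the transition
  have hy1 : ∀ i, y i ∈ FF U t1 := fun i => down (by show m₂ ≤ m₂ + m₁ - 1; omega)
    (Or.inl le_rfl) (hy i)
  have hy2 : ∀ i, shK κ (y i) ∈ FF U t2 := by
    intro i
    have h := FF_stepK L κ hU hUd hZ hXU (t := t1) (t' := t2)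
      (by show m₂ - 1 + 1 = m₂; omega) (hy1 i)
    rwa [if_pos rfl] at h
  have hsh : ∀ i x, shK κ (y i) (.c x) = y i (.c x) + κ x i := by
    intro i x
    show y i (.c x) + ∑ j, κ x j * y i (.a j) = _
    congr 1
    rw [Finset.sum_eq_single i]
    · rw [hy' i i, if_pos rfl, mul_one]
    · intro j _ hj
      rw [hy' i j, if_neg hj, mul_zero]
    · simp
  -- the relation between the two echelon bases
  have rel : ∀ i j, y i (.d j) = X2 (.a i) (.d j) + ∑ x, (y i (.c x) + κ x i) * X2 (.c x) (.d j) := by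
    intro i j
    have hD : shK κ (y i) - X2 (.a i) - ∑ x, (y i (.c x) + κ x i) • X2 (.c x) ∈ FF U t2 := by
      refine Submodule.sub_mem _ (Submodule.sub_mem _ (hy2 i) (hX2 _)) ?_
      exact Submodule.sum_mem _ fun x _ => Submodule.smul_mem _ _ (hX2 _)
    have hD0 := FF_zero L hU hUd hD (by
      intro q hq
      rw [hty2] at hq
      have hs : (∑ x, (y i (.c x) + κ x i) • X2 (.c x)) q =
          ∑ x, (y i (.c x) + κ x i) * (if q = .c x then 1 else 0) := by
        rw [Finset.sum_apply]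
        refine Finset.sum_congr rfl fun x _ => ?_
        rw [Pi.smul_apply, smul_eq_mul, hX2' _ _ hq]
      rw [Pi.sub_apply, Pi.sub_apply, hs, hX2' _ _ hq]
      cases q with
      | a j =>
        show y i (.a j) - _ - _ = 0
        rw [hy' i j]
        simp
      | c x =>
        rw [hsh]
        simp
      | c' j =>
        show y i (.c' j) - _ - _ = 0
        rw [z1 i (.c' j) trivial]
        simp
      | d j => exact absurd hq (by simp [piv]))
    have h1 := congrFun hD0 (.d j)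
    rw [Pi.sub_apply, Pi.sub_apply, Finset.sum_apply, Pi.zero_apply] at h1
    simp only [Pi.smul_apply, smul_eq_mul] at h1
    have h2 : shK κ (y i) (.d j) = y i (.d j) := rfl
    rw [h2] at h1
    linear_combination h1
  refine ⟨fun i x => y i (.c x), fun j x => X2 (.c x) (.d j), ?_, ?_, ?_, ?_⟩
  · intro i x h
    exact z1 i (.c x) h
  · intro j x h
    exact z2 (.c x) j h
  · intro i j hij hS
    have h1 := rel i j
    rw [z1 i (.d j) hij, z2 (.a i) j (Or.inr hS), zero_add] at h1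
    exact h1.symm
  · intro i h
    have h1 := rel i i
    rw [z2 (.a i) i (Or.inl rfl), zero_add, h] at h1
    have h2 : y i = 0 := by
      refine FF_first L hU hdet (t := t1) rfl (hy1 i) ?_
      intro j
      by_cases hij : i = j
      · rw [← hij]; exact h1
      · exact z1 i (.d j) hij
    have h3 := hy' i i
    rw [h2] at h3
    simp at h3

end Pool.Agent.SprP
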