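import Pool.Agent.SprJ.Base

/-!
# Definitions used in the statements (MP_3a0658_ag)   (helper8)
-/

set_option autoImplicit false

open Matrix

namespace Pool.Agent.SprP

open Pool.Agent.SprJ

/-- the value of an entry `0`, `1` or `γ l` -/
def val {K : Type*} [Field K] {g : ℕ} (γ : Fin g → K) : Option (Option (Fin g)) → K
  | none => 0
  | some none => 1
  | some (some l) => γ l

/-- the Jordan matrix plus the matrix `T(γ)` with entries `0`, `1` and `γ l` -/
def XT (K : Type*) [Field K] {n m r g : ℕ} (ε : Fin m × Fin r ≃ Fin n)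
    (T : Fin n → Fin n → Option (Option (Fin g))) (γ : Fin g → K) : Matrix (Fin n) (Fin n) K :=
  jordan K ε + Matrix.of fun i j => val γ (T i j)

/-- the system `G` of equations `x_i x_j = x_k` (`G m = (true, i, j, k)`) or `x_i + x_j = x_k`
(`G m = (false, i, j, k)`), `m < M`, has a solution in `K^N` with `x_one = 1` and `x_(pr l) = γ l`
for all `l` -/
def GSolP (K : Type*) [Field K] {N M g : ℕ} (G : Fin M → Bool × Fin N × Fin N × Fin N)
    (one : Fin N) (pr : Fin g → Fin N) (γ : Fin g → K) : Prop :=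
  ∃ x : Fin N → K, x one = 1 ∧ (∀ l, x (pr l) = γ l) ∧ ∀ m : Fin M,
    if (G m).1 then x (G m).2.1 * x (G m).2.2.1 = x (G m).2.2.2
    else x (G m).2.1 + x (G m).2.2.1 = x (G m).2.2.2

/-- `X` is conjugate to a Jordan matrix with `r` blocks, all of size `4` -/
def Type4 {K : Type*} [Field K] {n : ℕ} (r : ℕ) (X : Matrix (Fin n) (Fin n) K) : Prop :=
  ∃ (ε : Fin 4 × Fin r ≃ Fin n) (b : Matrix (Fin n) (Fin n) K), IsUnit b.det ∧
    X * b = b * jordan K ε

/-- `X` is strictly upper triangular, it has `r` Jordan blocks, all of size `4`, and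
`vB, wB ∈ S_X` -/
def Adm {K : Type*} [Field K] {n : ℕ} (r : ℕ) (v w : Equiv.Perm (Fin n))
    (X : Matrix (Fin n) (Fin n) K) : Prop :=
  (∀ i j, j ≤ i → X i j = 0) ∧ Type4 r X ∧ InSpringer X (perm K v) ∧ InSpringer X (perm K w)

end Pool.Agent.SprP
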