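import Pool.Agent.SprP.PtsK
import Pool.Agent.SprF.Cur

/-!
# Curves, with coefficients (MP_3a0658_ag)   (helper8, after helper29's `Cur.lean`)
-/

set_option autoImplicit false
set_option linter.unusedSimpArgs false

open Matrix

namespace Pool.Agent.SprP

open Pool.Agent.SprJ hiding S_Lay S_Tr S_An S_Cur S_Pts Lay_ex
open Pool.Agent.SprF hiding S_Lay S_Tr S_An S_Cur S_Pts
open Pool.Agent.SprF.CurAux

section general

variable {I C : Type} [Fintype I] [Fintype C] [DecidableEq I] [DecidableEq C]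

omit [DecidableEq I] [DecidableEq C] in
/-- the coefficients applied to a block -/
def addK {K : Type} [Field K] (κ : C → I → K) (A : Lb I C → Lb I C → K) : Lb I C → Lb I C → K :=
  fun p q => A p q + ∑ k, kp κ p k * A k q

lemma XK_mul {K : Type} [Field K] (m₂ m : ℕ) (κ : C → I → K) {A₂ A₁ R : Lb I C → Lb I C → K}
    (h : ∀ p q, ∑ k, A₂ p k * R k q = addK κ A₁ p q) :
    XK m₂ m κ * blk m₂ m A₂ A₁ = blk m₂ m A₂ A₁ * shf m₂ m R := by
  ext l k
  have e1 : (XK m₂ m κ * blk m₂ m A₂ A₁) l k = if (l.1 : ℕ) + 1 = (k.1 : ℕ) then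
      ((if ty m₂ k.1 then A₂ l.2 k.2 else A₁ l.2 k.2) +
        if (k.1 : ℕ) = m₂ then ∑ p, kp κ l.2 p * A₁ p k.2 else 0) else 0 := by
    rw [Matrix.mul_apply, Fintype.sum_prod_type, Finset.sum_eq_single k.1]
    · have h1 : ∀ p, XK m₂ m κ l (k.1, p) * blk m₂ m A₂ A₁ (k.1, p) k =
          (if (l.1 : ℕ) + 1 = (k.1 : ℕ) ∧ l.2 = p then
            (if ty m₂ k.1 then A₂ l.2 k.2 else A₁ l.2 k.2) else 0) +
          (if (l.1 : ℕ) + 1 = (k.1 : ℕ) then
            (if (k.1 : ℕ) = m₂ then kp κ l.2 p * A₁ p k.2 else 0) else 0) := by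
        intro p
        rw [XK, Matrix.add_apply, add_mul]
        congr 1
        · simp only [XL, blk, Matrix.of_apply, if_true]
          by_cases h2 : (l.1 : ℕ) + 1 = (k.1 : ℕ) ∧ l.2 = p
          · rw [if_pos h2, if_pos h2, one_mul, h2.2]
          · rw [if_neg h2, if_neg h2, zero_mul]
        · simp only [NK, blk, Matrix.of_apply, if_true]
          by_cases h2 : (l.1 : ℕ) + 1 = (k.1 : ℕ)
          · by_cases h3 : (k.1 : ℕ) = m₂
            · have h4 : ty m₂ k.1 = false := by simp [ty, h3]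
              rw [if_pos ⟨h2, h3⟩, if_pos h2, if_pos h3, h4]
              simp
            · rw [if_neg (fun h => h3 h.2), if_pos h2, if_neg h3, zero_mul]
          · rw [if_neg (fun h => h2 h.1), if_neg h2, zero_mul]
      rw [Finset.sum_congr rfl fun p _ => h1 p, Finset.sum_add_distrib]
      by_cases h2 : (l.1 : ℕ) + 1 = (k.1 : ℕ)
      · by_cases h3 : (k.1 : ℕ) = m₂
        · simp [h2, h3]
        · simp [h2, h3]
      · simp [h2]
    · intro t _ ht
      refine Finset.sum_eq_zero fun x _ => ?_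
      simp [blk, ht]
    · simp
  have e2 : (blk m₂ m A₂ A₁ * shf m₂ m R) l k = if (l.1 : ℕ) + 1 = (k.1 : ℕ) then
      ∑ x, (if ty m₂ l.1 then A₂ l.2 x else A₁ l.2 x) *
        (if ty m₂ l.1 = ty m₂ k.1 then (if x = k.2 then 1 else 0) else R x k.2) else 0 := by
    rw [Matrix.mul_apply, Fintype.sum_prod_type, Finset.sum_eq_single l.1]
    · by_cases hl : (l.1 : ℕ) + 1 = (k.1 : ℕ)
      · simp [blk, shf, hl]
      · simp [blk, shf, hl]
    · intro t _ ht
      refine Finset.sum_eq_zero fun x _ => ?_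
      simp [blk, Ne.symm ht]
    · simp
  rw [e1, e2]
  by_cases hl : (l.1 : ℕ) + 1 = (k.1 : ℕ)
  · rw [if_pos hl, if_pos hl]
    by_cases hk : ty m₂ k.1 = true
    · have hl2 : ty m₂ l.1 = true := pts_ty (by omega) hk
      have hk2 : (k.1 : ℕ) ≠ m₂ := by
        simp only [ty, decide_eq_true_eq] at hk
        omega
      simp [hk, hl2, hk2]
    · have hk' : ty m₂ k.1 = false := by simpa using hk
      by_cases hl2 : ty m₂ l.1 = true
      · have hk2 : (k.1 : ℕ) = m₂ := by
          simp only [ty, decide_eq_true_eq, decide_eq_false_iff_not] at hl2 hk'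
          omega
        rw [if_pos hk2]
        simp only [hk', hl2, Bool.false_eq_true, if_false, if_true]
        rw [← show addK κ A₁ l.2 k.2 = A₁ l.2 k.2 + ∑ p, kp κ l.2 p * A₁ p k.2 from rfl,
          ← h l.2 k.2]
        exact Finset.sum_congr rfl fun x _ => by simp
      · have hl2' : ty m₂ l.1 = false := by simpa using hl2
        have hk2 : (k.1 : ℕ) ≠ m₂ := by
          simp only [ty, decide_eq_false_iff_not] at hl2'
          omega
        simp [hk', hl2', hk2]
  · rw [if_neg hl, if_neg hl]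

/-- the transition -/
def Tr21K {R : Type} [CommRing R] (s : R) (Q : I → I → R) (Z : I → C → R) (Wi : I → R)
    (Y : I → C → R) (κ : C → I → R) : Lb I C → Lb I C → R
  | .c' j, .a i => if j = i then 1 else 0
  | .a j, .a i => if j = i then s * Wi i else 0
  | .c x, .a i => s * Wi i * (Y i x + κ x i)
  | .c y, .c x => if y = x then 1 else 0
  | .d j, .c x => s * Z j x
  | .d j, .c' i => if j = i then 1 else 0
  | .a j, .d i => if j = i then 1 else 0
  | .c x, .d i => κ x i
  | .d j, .d i => s * (Q i j + ∑ x, κ x i * Z j x)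
  | _, _ => 0

lemma trans21K {K : Type} [Field K] (s : K) {Q : I → I → K} {Z : I → C → K} {W Wi : I → K}
    {Y : I → C → K} (κ : C → I → K) (hW : ∀ i, W i * Wi i = 1)
    (hQ : ∀ i j, Q i j + ∑ x, (Y i x + κ x i) * Z j x = if i = j then W i else 0) (p q : Lb I C) :
    ∑ k, G2 s Q Z p k * Tr21K s Q Z Wi Y κ k q = addK κ (G1 s Wi Y) p q := by
  rw [addK, sum_Lb, sum_Lb]
  cases p <;> cases q <;>
    simp [G2, Tr21K, G1, kp, Finset.sum_ite_eq, Finset.sum_ite_eq', ite_mul, mul_ite]
  · ring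
  · rename_i j i
    have h1 : ∑ x, s * Z j x * (s * Wi i * (Y i x + κ x i)) =
        s ^ 2 * Wi i * ∑ x, (Y i x + κ x i) * Z j x := by
      rw [Finset.mul_sum]
      exact Finset.sum_congr rfl fun x _ => by ring
    have h2 := hQ i j
    rw [h1]
    by_cases h : j = i
    · subst h
      rw [if_pos rfl] at h2 ⊢
      linear_combination (-(s ^ 2 * Wi j)) * h2 - s ^ 2 * hW j
    · rw [if_neg (Ne.symm h)] at h2
      rw [if_neg h]
      linear_combination (-(s ^ 2 * Wi i)) * h2
  · rename_i j i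
    have h1 : ∑ x, s * Z j x * κ x i = s * ∑ x, κ x i * Z j x := by
      rw [Finset.mul_sum]
      exact Finset.sum_congr rfl fun x _ => by ring
    rw [h1]
    ring

end general

section tri

variable {I C : Type} [Fintype C] [DecidableEq I] [DecidableEq C]
  {sY sZ : I → C → Prop} {Sg : I → I → Prop} {m₂ m₁ : ℕ}
  {V : LevF sY sZ Sg m₂ m₁} {n : ℕ} {K : Type} [Field K]

lemma tri_shfK (L : LayF V n) {s : K} {Q : I → I → K} {Z : I → C → K} {Wi : I → K}
    {Y : I → C → K} {κ : C → I → K}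
    (a k : Lab (m₂ + m₁) I C) (h : L.pos k < L.pos a) :
    shf m₂ (m₂ + m₁) (Tr21K s Q Z Wi Y κ) a k = 0 := by
  by_contra hne
  simp only [shf, Matrix.of_apply] at hne
  by_cases h1 : (a.1 : ℕ) + 1 = (k.1 : ℕ)
  · rw [if_pos h1] at hne
    refine absurd (pts_pos L (l := a) (k := k) (by omega) ?_) (not_lt.2 h.le)
    by_cases h2 : ty m₂ a.1 = ty m₂ k.1
    · rw [if_pos h2] at hne
      have h3 : a.2 = k.2 := by
        by_contra h4
        exact hne (if_neg h4)
      unfold early
      rw [h2, h3]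
      exact id
    · rw [if_neg h2] at hne
      unfold early
      cases hk : ty m₂ k.1
      · cases ha : ty m₂ a.1
        · rw [ha, hk] at h2
          exact absurd rfl h2
        · revert hne
          cases a.2 <;> cases k.2 <;> simp [piv, Tr21K]
      · exact absurd (by rw [pts_ty (by omega) hk, hk]) h2
  · exact hne (if_neg h1)

end tri

/-- curves -/
theorem CurK : S_CurK := by
  rintro I C _ _ _ _ sY sZ Sg m₂ m₁ n V L K _ _ κ ⟨Y, Z, hY, hZ, hor, hW⟩
  set W : I → K := fun i => ∑ x, (Y i x + κ x i) * Z i x with hWdef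
  set Wi : I → K := fun i => (W i)⁻¹ with hWi
  have hWW : ∀ i, W i * Wi i = 1 := fun i => mul_inv_cancel₀ (hW i)
  set Q : I → I → K := fun i j => if i = j then 0 else -∑ x, (Y i x + κ x i) * Z j x with hQdef
  have hQ : ∀ i j, Q i j + ∑ x, (Y i x + κ x i) * Z j x = if i = j then W i else 0 := by
    intro i j
    by_cases h : i = j
    · subst h
      simp [hQdef, hWdef]
    · simp [hQdef, h]
  have hQ0 : ∀ i j, (i = j ∨ Sg i j) → Q i j = 0 := by
    intro i j h
    by_cases hij : i = j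
    · simp [hQdef, hij]
    · rcases h with h | h
      · exact absurd h hij
      · simp [hQdef, hor i j hij h]
  set GM : Matrix (Lab (m₂ + m₁) I C) (Lab (m₂ + m₁) I C) (Polynomial K) :=
    blk m₂ (m₂ + m₁) (G2 Polynomial.X (fun i j => Polynomial.C (Q i j))
      fun i x => Polynomial.C (Z i x)) (G1 Polynomial.X (fun i => Polynomial.C (Wi i))
      fun i x => Polynomial.C (Y i x)) with hGM
  have hev : ∀ s : K, GM.map (Polynomial.eval s) =
      blk m₂ (m₂ + m₁) (G2 s Q Z) (G1 s Wi Y) := by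
    intro s
    ext ⟨t, p⟩ ⟨t', q⟩
    simp only [hGM, blk, Matrix.map_apply, Matrix.of_apply]
    split_ifs
    · cases p <;> cases q <;> simp only [G2] <;> (try split_ifs) <;>
        simp only [Polynomial.eval_mul, Polynomial.eval_neg, Polynomial.eval_pow,
          Polynomial.eval_X, Polynomial.eval_C, Polynomial.eval_one, Polynomial.eval_zero]
    · cases p <;> cases q <;> simp only [G1] <;> (try split_ifs) <;>
        simp only [Polynomial.eval_mul, Polynomial.eval_neg, Polynomial.eval_pow,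
          Polynomial.eval_X, Polynomial.eval_C, Polynomial.eval_one, Polynomial.eval_zero]
    · simp
  apply closure_of_curve (GM.submatrix L.idx.symm L.pos.symm)
  · rw [← Matrix.submatrix_map, hev]
    ext i j
    simp only [Matrix.submatrix_apply, perm, Matrix.of_apply, LayF.v, Equiv.trans_apply]
    obtain ⟨l, rfl⟩ := L.idx.surjective i
    obtain ⟨k, rfl⟩ := L.pos.surjective j
    simp only [Equiv.symm_apply_apply, EmbeddingLike.apply_eq_iff_eq, Lay.sigE, Equiv.coe_fn_mk]
    obtain ⟨t, p⟩ := l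
    obtain ⟨t', q⟩ := k
    simp only [blk, Matrix.of_apply, sig, Prod.mk.injEq]
    by_cases e : t = t'
    · subst e
      cases ht : ty m₂ t
      · cases p <;> cases q <;> simp [G1, sg]
      · cases p <;> cases q <;> simp [G2, sg]
    · simp [e]
  · intro s hs
    rw [← Matrix.submatrix_map, hev]
    have hsr : s * s⁻¹ = 1 := mul_inv_cancel₀ hs
    refine cell_of_label L (U := blk m₂ (m₂ + m₁) (U2 s⁻¹ Q Z) (U1 s⁻¹ W Y))
      (B := blk m₂ (m₂ + m₁) (B2 s s⁻¹ Q Z) (B1 s s⁻¹ W Wi Y))
      (Yp := shf m₂ (m₂ + m₁) (Tr21K s Q Z Wi Y κ)) ?_ ?_ ?_ ?_ ?_ ?_ ?_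
    · exact tri_blk (fun t ht => triU2 L hZ hQ0 ht) (fun t ht => triU1 L hY ht)
    · rintro ⟨t, p⟩
      simp only [blk, Matrix.of_apply]
      cases p <;> simp [U2, U1]
    · exact tri_blk (fun t ht => triB2 L ht) (fun t ht => triB1 L ht)
    · rintro ⟨t, p⟩
      simp only [blk, Matrix.of_apply]
      have hW' : ∀ i, W i ≠ 0 := hW
      cases p <;> simp only [B2, B1, if_true] <;> split_ifs <;> simp [hs, hW', hWi]
    · exact blk_mul m₂ _ (fac2 hsr Q Z) (fac1 hsr hWW Y)
    · exact tri_shfK L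
    · exact XK_mul m₂ _ κ (trans21K s κ hWW hQ)

end Pool.Agent.SprP
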