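import Pool.Agent.SprP.Base
import Pool.Agent.SprF.LocMain

/-!
# Coefficients at the transition
(MP_3a0658_ag, universality for `X` with coefficients, Jordan blocks of size four)   (helper8)

`X_κ` is the Jordan matrix plus the coefficients `κ x i` at the places `((m₂ - 1, c x), (m₂, a i))`.
-/

set_option autoImplicit false

open Matrix

namespace Pool.Agent.SprP

open Pool.Agent.SprJ hiding S_Lay S_Tr S_An S_Cur S_Pts Lay_ex
open Pool.Agent.SprF hiding S_Lay S_Tr S_An S_Cur S_Pts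

/-- orthogonality systems, the first vectors being displaced by `κ` -/
def OSolK (K : Type*) [Field K] {I C : Type} [Fintype C] (sY sZ : I → C → Prop)
    (Sg : I → I → Prop) (κ : C → I → K) : Prop :=
  ∃ Y Z : I → C → K, (∀ i x, ¬ sY i x → Y i x = 0) ∧ (∀ i x, ¬ sZ i x → Z i x = 0) ∧
    (∀ i j, i ≠ j → Sg i j → ∑ x, (Y i x + κ x i) * Z j x = 0) ∧
    ∀ i, ∑ x, (Y i x + κ x i) * Z i x ≠ 0

/-- the coefficients as a matrix on labels -/
def kp {K : Type*} [Field K] {I C : Type} (κ : C → I → K) : Lb I C → Lb I C → K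
  | .c x, .a i => κ x i
  | _, _ => 0

/-- the coefficient matrix on labels -/
def NK {K : Type*} [Field K] (m₂ m : ℕ) {I C : Type} (κ : C → I → K) :
    Matrix (Lab m I C) (Lab m I C) K :=
  fun l k => if (l.1 : ℕ) + 1 = (k.1 : ℕ) ∧ (k.1 : ℕ) = m₂ then kp κ l.2 k.2 else 0

/-- the nilpotent matrix in label form -/
def XK {K : Type*} [Field K] (m₂ m : ℕ) {I C : Type} [DecidableEq I] [DecidableEq C]
    (κ : C → I → K) : Matrix (Lab m I C) (Lab m I C) K :=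
  XL K m I C + NK m₂ m κ

/-- from the closure to label matrices -/
def S_TrK : Prop := ∀ (I C : Type) [Fintype I] [Fintype C] [DecidableEq I] [DecidableEq C]
  (sY sZ : I → C → Prop) (Sg : I → I → Prop) (m₂ m₁ n : ℕ) (V : LevF sY sZ Sg m₂ m₁)
  (L : LayF V n) (K : Type) [Field K] (X : Matrix (Lab (m₂ + m₁) I C) (Lab (m₂ + m₁) I C) K),
  InClosure (X.submatrix L.idx.symm L.idx.symm) L.v L.w →
  ∃ U Z : Matrix (Lab (m₂ + m₁) I C) (Lab (m₂ + m₁) I C) K,
    (∀ a k, L.idx k < L.idx a → U a k = 0) ∧ (∀ k, U k k ≠ 0) ∧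
    (∀ l k, L.pos k < L.pos l → Z l k = 0) ∧ X * U = U * Z ∧
    ∀ p : ℕ, ((Matrix.of fun a b : {k : Lab (m₂ + m₁) I C // ((L.pos k : Fin n) : ℕ) < p} =>
      U (sig m₂ a.1) b.1).det ≠ 0)

/-- analysis of the cell -/
def S_AnK : Prop := ∀ (I C : Type) [Fintype I] [Fintype C] [DecidableEq I] [DecidableEq C]
  (sY sZ : I → C → Prop) (Sg : I → I → Prop) (m₂ m₁ n : ℕ) (V : LevF sY sZ Sg m₂ m₁)
  (L : LayF V n) (K : Type) [Field K] (κ : C → I → K), 0 < m₂ → 0 < m₁ →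
  ∀ U Z : Matrix (Lab (m₂ + m₁) I C) (Lab (m₂ + m₁) I C) K,
    (∀ a k, L.idx k < L.idx a → U a k = 0) → (∀ k, U k k ≠ 0) →
    (∀ l k, L.pos k < L.pos l → Z l k = 0) → XK m₂ (m₂ + m₁) κ * U = U * Z →
    (∀ p : ℕ, ((Matrix.of fun a b : {k : Lab (m₂ + m₁) I C // ((L.pos k : Fin n) : ℕ) < p} =>
      U (sig m₂ a.1) b.1).det ≠ 0)) →
    OSolK K sY sZ Sg κ

/-- curves -/
def S_CurK : Prop := ∀ (I C : Type) [Fintype I] [Fintype C] [DecidableEq I] [DecidableEq C]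
  (sY sZ : I → C → Prop) (Sg : I → I → Prop) (m₂ m₁ n : ℕ) (V : LevF sY sZ Sg m₂ m₁)
  (L : LayF V n) (K : Type) [Field K] [Infinite K] (κ : C → I → K), OSolK K sY sZ Sg κ →
  InClosure ((XK m₂ (m₂ + m₁) κ).submatrix L.idx.symm L.idx.symm) L.v L.w

/-- `X` is strictly upper triangular, `vB, wB ∈ S_X`, and `X` is conjugate to the Jordan matrix -/
def S_PtsK : Prop := ∀ (I C : Type) [Fintype I] [Fintype C] [DecidableEq I] [DecidableEq C]
  (sY sZ : I → C → Prop) (Sg : I → I → Prop) (m₂ m₁ n : ℕ) (V : LevF sY sZ Sg m₂ m₁)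
  (L : LayF V n) (K : Type) [Field K] (κ : C → I → K),
  (∀ i j, j ≤ i → (XK m₂ (m₂ + m₁) κ).submatrix L.idx.symm L.idx.symm i j = 0) ∧
    InSpringer ((XK m₂ (m₂ + m₁) κ).submatrix L.idx.symm L.idx.symm) (perm K L.v) ∧
    InSpringer ((XK m₂ (m₂ + m₁) κ).submatrix L.idx.symm L.idx.symm) (perm K L.w) ∧
    ∃ b : Matrix (Fin n) (Fin n) K, IsUnit b.det ∧
      (XK m₂ (m₂ + m₁) κ).submatrix L.idx.symm L.idx.symm * b =
        b * (XL K (m₂ + m₁) I C).submatrix L.idx.symm L.idx.symm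

end Pool.Agent.SprP
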