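import Pool.Agent.SprP.LineP

/-!
# Degree lower bounds for criteria by signs of polynomials in the entries of `X`
(MP_3a0658_ag)   (helper8, after helper58's `Degree.lean`)
-/

set_option autoImplicit false

open Matrix

namespace Pool.Agent.SprP

open Pool.Agent.SprJ hiding S_Lay S_Tr S_An S_Cur S_Pts Lay_ex
open Pool.Agent.SprF hiding S_Lay S_Tr S_An S_Cur S_Pts
open Pool.Agent.Lib_helper58.Spr (exists_tr aeval_line rank_eq_of_low_degree)

lemma evalR_line {n : ℕ} (Xp : Matrix (Fin n) (Fin n) (Polynomial ℚ))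
    (P : MvPolynomial (Fin n × Fin n) ℝ) (c : ℝ) :
    MvPolynomial.eval (fun p : Fin n × Fin n => (Xp.map (Polynomial.aeval c)) p.1 p.2) P
      = Polynomial.eval c (MvPolynomial.aeval
          (fun p : Fin n × Fin n => (Xp p.1 p.2).map (algebraMap ℚ ℝ)) P) := by
  have := MvPolynomial.comp_aeval (fun p : Fin n × Fin n => (Xp p.1 p.2).map (algebraMap ℚ ℝ))
    (Polynomial.aeval (R := ℝ) c)
  have h2 := (congrArg (fun φ => φ P) this).symm
  simp only [AlgHom.comp_apply] at h2
  rw [Polynomial.coe_aeval_eq_eval, MvPolynomial.aeval_eq_eval] at h2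
  rw [← h2]
  congr 1
  congr 1
  funext p
  rw [Matrix.map_apply, Polynomial.eval_map_algebraMap]

/-- the signs of finitely many nonzero polynomials are constant near a point which is not a root -/
lemma sign_near (q : Polynomial ℝ) (t : ℝ) (h : q ≠ 0 → Polynomial.eval t q ≠ 0) :
    ∀ᶠ s in nhds t, SignType.sign (Polynomial.eval s q) = SignType.sign (Polynomial.eval t q) := by
  by_cases hq : q = 0
  · subst hq
    simp
  · have h0 := h hq
    have hc : ContinuousAt (fun s => Polynomial.eval s q) t := q.continuous.continuousAt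
    rcases lt_or_gt_of_ne h0 with h1 | h1
    · filter_upwards [hc.eventually (gt_mem_nhds h1)] with s hs
      rw [sign_neg hs, sign_neg h1]
    · filter_upwards [hc.eventually (lt_mem_nhds h1)] with s hs
      rw [sign_pos hs, sign_pos h1]

lemma cv_ofReal (s : ℝ) (k : ℕ) : cv (s : ℂ) k = ((cv s k : ℝ) : ℂ) := by
  induction k with
  | zero => rfl
  | succ k ih =>
    show cv (s : ℂ) k ^ 2 - 2 = ((cv s k ^ 2 - 2 : ℝ) : ℂ)
    rw [ih]
    push_cast
    ring

/-- **the degree lower bounds** -/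
theorem degP (k : ℕ) : ∃ (n r : ℕ) (v w : Equiv.Perm (Fin n)),
    n ≤ 28000 * (2 * k + 3) ^ 2 ∧ (w⁻¹ * v) ^ 2 = 1 ∧
    (∃ X X' : Matrix (Fin n) (Fin n) ℂ, Adm r v w X ∧ Adm r v w X' ∧
      InClosure X v w ∧ ¬ InClosure X' v w ∧
      ∀ (s t d : ℕ) (M : Matrix (Fin s) (Fin t) (MvPolynomial (Fin n × Fin n) ℚ)),
        (∀ i j, (M i j).totalDegree ≤ d) → s * d < 2 ^ k →
        (M.map (MvPolynomial.aeval fun p => X p.1 p.2)).rank
          = (M.map (MvPolynomial.aeval fun p => X' p.1 p.2)).rank) ∧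
    (∀ (m D : ℕ) (P : Fin m → MvPolynomial (Fin n × Fin n) ℝ), (∀ l, (P l).totalDegree ≤ D) →
      (∀ X X' : Matrix (Fin n) (Fin n) ℝ, Adm r v w (X.map Complex.ofReal) →
        Adm r v w (X'.map Complex.ofReal) →
        (∀ l, SignType.sign (MvPolynomial.eval (fun p => X p.1 p.2) (P l)) =
          SignType.sign (MvPolynomial.eval (fun p => X' p.1 p.2) (P l))) →
        (InClosure (X.map Complex.ofReal) v w ↔ InClosure (X'.map Complex.ofReal) v w)) →
      2 ^ k ≤ m * D) := by
  classical
  obtain ⟨n, r, Xp, v, w, hn, h1, h2, h3⟩ := line k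
  have hpos : 0 < 2 ^ k := by positivity
  refine ⟨n, r, v, w, hn, h1, ?_, ?_⟩
  · obtain ⟨c, hc⟩ : ∃ c : ℂ, cv c k = 0 := by
      obtain ⟨c, hc⟩ := IsAlgClosed.exists_root ((Cq' k).map (algebraMap ℚ ℂ)) (by
        rw [Polynomial.degree_map, Polynomial.degree_eq_natDegree (Cq_monic k).ne_zero, Cq_deg]
        exact_mod_cast hpos.ne')
      refine ⟨c, ?_⟩
      rw [Polynomial.IsRoot, Polynomial.eval_map_algebraMap, Cq_aeval] at hc
      exact hc
    obtain ⟨t, ht⟩ := exists_tr
    have htne : cv t k ≠ 0 := by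
      intro h
      apply ht
      refine ⟨Cq' k, (Cq_monic k).ne_zero, ?_⟩
      rw [Cq_aeval, h]
    obtain ⟨a1, a2, a3, a4, a5⟩ := h3 ℂ c
    obtain ⟨b1, b2, b3, b4, b5⟩ := h3 ℂ t
    refine ⟨_, _, ⟨a1, a2, a3, a4⟩, ⟨b1, b2, b3, b4⟩, a5.2 hc, fun h => htne (b5.1 h), ?_⟩
    intro s t' d M hM hs
    refine rank_eq_of_low_degree _ _ ?_ s t' d M hM hs
    intro P hP
    rw [aeval_line, aeval_line]
    have hdeg : (MvPolynomial.aeval (fun p : Fin n × Fin n => Xp p.1 p.2) P).natDegree
        < 2 ^ k := by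
      refine lt_of_le_of_lt (MvPolynomial.aeval_natDegree_le (m := P.totalDegree) (n := 1) P le_rfl
        _ fun p => h2 p.1 p.2) ?_
      rwa [mul_one]
    constructor
    · intro h
      rw [small_zero hc hdeg h]
      simp
    · intro h
      have h0 : MvPolynomial.aeval (fun p : Fin n × Fin n => Xp p.1 p.2) P = 0 := by
        by_contra hne
        exact ht ⟨_, hne, h⟩
      rw [h0]
      simp
  · intro m D P hPD hcrit
    by_contra hlt
    push Not at hlt
    let q : Fin m → Polynomial ℝ := fun l =>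
      MvPolynomial.aeval (fun p : Fin n × Fin n => (Xp p.1 p.2).map (algebraMap ℚ ℝ)) (P l)
    have hq : ∀ l, (q l).natDegree ≤ D := by
      intro l
      refine le_trans (MvPolynomial.aeval_natDegree_le (m := D) (n := 1) (P l) (hPD l)
        _ fun p => ?_) (by rw [mul_one])
      exact le_trans Polynomial.natDegree_map_le (h2 p.1 p.2)
    let R : Finset ℝ := Finset.univ.biUnion fun l => (q l).roots.toFinset
    have hR : R.card ≤ m * D := by
      calc R.card ≤ ∑ l : Fin m, (q l).roots.toFinset.card := Finset.card_biUnion_le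
        _ ≤ ∑ _l : Fin m, D := Finset.sum_le_sum fun l _ =>
            (Multiset.toFinset_card_le _).trans ((Polynomial.card_roots' _).trans (hq l))
        _ = m * D := by simp
    -- a root outside `R`
    obtain ⟨c, hc1, hc2⟩ : ∃ c ∈ rt k, c ∉ R := by
      by_contra hcon
      push Not at hcon
      have := Finset.card_le_card (show rt k ⊆ R from fun c hc => hcon c hc)
      rw [rt_card] at this
      omega
    have hcR : ∀ l, q l ≠ 0 → Polynomial.eval c (q l) ≠ 0 := by
      intro l hl h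
      apply hc2
      simp only [R, Finset.mem_biUnion, Finset.mem_univ, true_and, Multiset.mem_toFinset]
      exact ⟨l, (Polynomial.mem_roots hl).2 h⟩
    -- a nearby point which is not a root
    have hroots : ∀ᶠ s in nhdsWithin c {c}ᶜ, cv s k ≠ 0 := by
      have hne : (Cq' k).map (algebraMap ℚ ℝ) ≠ 0 :=
        (Polynomial.map_ne_zero_iff (algebraMap ℚ ℝ).injective).2 (Cq_monic k).ne_zero
      have hfin : {s : ℝ | cv s k = 0}.Finite := by
        refine ((((Cq' k).map (algebraMap ℚ ℝ)).roots.toFinset).finite_toSet).subset ?_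
        intro s hs
        simp only [Finset.mem_coe, Multiset.mem_toFinset]
        rw [Polynomial.mem_roots hne, Polynomial.IsRoot, Polynomial.eval_map_algebraMap, Cq_aeval]
        exact hs
      have hcl : IsClosed ({s : ℝ | cv s k = 0} \ {c}) := (hfin.subset Set.sdiff_subset).isClosed
      have hmem : ({s : ℝ | cv s k = 0} \ {c})ᶜ ∈ nhds c :=
        hcl.isOpen_compl.mem_nhds (by simp)
      filter_upwards [mem_nhdsWithin_of_mem_nhds hmem, self_mem_nhdsWithin] with s hs hs'
      intro h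
      exact hs ⟨h, hs'⟩
    have hsign : ∀ᶠ s in nhdsWithin c {c}ᶜ, ∀ l, SignType.sign (Polynomial.eval s (q l)) =
        SignType.sign (Polynomial.eval c (q l)) := by
      rw [Filter.eventually_all]
      intro l
      exact (sign_near (q l) c (hcR l)).filter_mono nhdsWithin_le_nhds
    obtain ⟨t, ht1, ht2⟩ := (hroots.and hsign).exists
    have hmap : ∀ s : ℝ, (Xp.map (Polynomial.aeval s)).map Complex.ofReal =
        Xp.map (Polynomial.aeval (s : ℂ)) := by
      intro s
      ext i j
      rw [Matrix.map_apply, Matrix.map_apply, Matrix.map_apply]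
      exact (Polynomial.aeval_algebraMap_apply ℂ s (Xp i j)).symm
    have hcv : ∀ s : ℝ, cv (s : ℂ) k = ((cv s k : ℝ) : ℂ) := fun s => cv_ofReal s k
    obtain ⟨a1, a2, a3, a4, a5⟩ := h3 ℂ (c : ℂ)
    obtain ⟨b1, b2, b3, b4, b5⟩ := h3 ℂ (t : ℂ)
    have h5 := hcrit (Xp.map (Polynomial.aeval c)) (Xp.map (Polynomial.aeval t))
      (by rw [hmap]; exact ⟨a1, a2, a3, a4⟩) (by rw [hmap]; exact ⟨b1, b2, b3, b4⟩) (by
        intro l
        rw [evalR_line, evalR_line]
        exact (ht2 l).symm)
    rw [hmap, hmap] at h5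
    have h6 := b5.1 (h5.1 (a5.2 (by rw [hcv, rt_root hc1]; rfl)))
    rw [hcv] at h6
    exact ht1 (by exact_mod_cast h6)

end Pool.Agent.SprP
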