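import Pool.Agent.SprP.DegP
import Pool.Agent.SprF.LocDeg

/-!
# Universality and lower bounds for Springer Schubert cells, Jordan blocks of size four
(MP_3a0658_ag)   (helper8, helper21)
-/

set_option autoImplicit false

open Matrix

namespace Pool.Agent.SprP

open Pool.Agent.SprJ hiding S_Lay S_Tr S_An S_Cur S_Pts Lay_ex
open Pool.Agent.SprF hiding S_Lay S_Tr S_An S_Cur S_Pts

lemma type4_jordan {K : Type*} [Field K] {n r : ℕ} (ε : Fin 4 × Fin r ≃ Fin n) :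
    Type4 r (jordan K ε) :=
  ⟨ε, 1, by simp, by rw [Matrix.mul_one, Matrix.one_mul]⟩

theorem final :
    (∀ (N M g : ℕ) (one : Fin N) (pr : Fin g → Fin N), Function.Injective pr →
      ∃ (n r : ℕ) (v w : Equiv.Perm (Fin n))
        (ε : (Fin M → Bool × Fin N × Fin N × Fin N) → (Fin 4 × Fin r ≃ Fin n))
        (T : Fin n → Fin n → Option (Option (Fin g))),
        n ≤ 7000 * (N + M + 1) ^ 2 ∧ (w⁻¹ * v) ^ 2 = 1 ∧
        (∀ i j, ∃ S : Finset (Fin M), S.card ≤ 1 ∧ ∀ G G', (∀ m ∈ S, G m = G' m) →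
          ∀ (K : Type) [Field K], jordan K (ε G) i j = jordan K (ε G') i j) ∧
        (g = 0 → ∀ i j, T i j = none) ∧
        (∀ l, ∃! p : Fin n × Fin n, T p.1 p.2 = some (some l)) ∧
        ∀ G (K : Type) [Field K] [Infinite K] (γ : Fin g → K),
          Adm r v w (XT K (ε G) T γ) ∧ (∀ i j, T i j ≠ none → jordan K (ε G) i j = 0) ∧
          (InClosure (XT K (ε G) T γ) v w ↔ GSolP K G one pr γ)) ∧
    (∀ (a b g : ℕ) (f : Fin b → MvPolynomial (Fin a) ℤ) (q : Fin g → Fin a),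
      Function.Injective q →
      ∃ (N M : ℕ) (G : Fin M → Bool × Fin N × Fin N × Fin N) (one : Fin N) (pr : Fin g → Fin N),
        Function.Injective pr ∧ N + M + 1 ≤ 12 * (1 + g + ∑ l, (1 + len (f l))) ∧
        ∀ (K : Type) [Field K] (γ : Fin g → K), GSolP K G one pr γ ↔
          ∃ x : Fin a → K, (∀ l, x (q l) = γ l) ∧ ∀ l, MvPolynomial.aeval x (f l) = 0) ∧
    (∀ D k : ℕ, ∃ (n r : ℕ) (v w : Equiv.Perm (Fin n)),
      n ≤ (1000 * (D + 1) * 8 ^ (D + 1) * (k + 3)) ^ 2 ∧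
      ∀ (K : Type) [Field K] [Infinite K] (s : ℕ) (P : Fin s → MvPolynomial (Fin n × Fin n) ℝ),
        (∀ l, (P l).totalDegree ≤ D) →
        (∀ ε : Fin 4 × Fin r ≃ Fin n, Adm r v w (jordan K ε) →
          (InClosure (jordan K ε) v w ↔
            ∀ l, 0 ≤ MvPolynomial.eval (fun p => jordan ℝ ε p.1 p.2) (P l))) →
        2 ^ k ≤ s) ∧
    (∀ k : ℕ, ∃ (n r : ℕ) (v w : Equiv.Perm (Fin n)), n ≤ 28000 * (2 * k + 3) ^ 2 ∧
      (∃ X X' : Matrix (Fin n) (Fin n) ℂ, Adm r v w X ∧ Adm r v w X' ∧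
        InClosure X v w ∧ ¬ InClosure X' v w ∧
        ∀ (s t d : ℕ) (M : Matrix (Fin s) (Fin t) (MvPolynomial (Fin n × Fin n) ℚ)),
          (∀ i j, (M i j).totalDegree ≤ d) → s * d < 2 ^ k →
          (M.map (MvPolynomial.aeval fun p => X p.1 p.2)).rank
            = (M.map (MvPolynomial.aeval fun p => X' p.1 p.2)).rank) ∧
      (∀ (m D : ℕ) (P : Fin m → MvPolynomial (Fin n × Fin n) ℝ), (∀ l, (P l).totalDegree ≤ D) →
        (∀ X X' : Matrix (Fin n) (Fin n) ℝ, Adm r v w (X.map Complex.ofReal) →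
          Adm r v w (X'.map Complex.ofReal) →
          (∀ l, SignType.sign (MvPolynomial.eval (fun p => X p.1 p.2) (P l)) =
            SignType.sign (MvPolynomial.eval (fun p => X' p.1 p.2) (P l))) →
          (InClosure (X.map Complex.ofReal) v w ↔ InClosure (X'.map Complex.ofReal) v w)) →
        2 ^ k ≤ m * D)) := by
  refine ⟨?_, GateP, ?_, ?_⟩
  · intro N M g one pr hpr
    obtain ⟨n, r, v, w, ε, T, h1, h2, h3, h4, h5, h6⟩ := locMainP N M g one pr hpr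
    refine ⟨n, r, v, w, ε, T, h1, h2, h3, h4, h5, fun G K _ _ γ => ?_⟩
    obtain ⟨a1, a2, ⟨b, hb, hb'⟩, a4, a5, a6⟩ := h6 G K γ
    exact ⟨⟨a2, ⟨ε G, b, hb, hb'⟩, a4, a5⟩, a1, a6⟩
  · intro D k
    obtain ⟨n, r, v, w, h1, h2⟩ := degMain D k
    refine ⟨n, r, v, w, h1, fun K _ _ s P hP h => h2 K s P hP fun ε b1 b2 b3 => ?_⟩
    exact h ε ⟨b1, type4_jordan ε, b2, b3⟩
  · intro k
    obtain ⟨n, r, v, w, h1, -, h3⟩ := degP k
    exact ⟨n, r, v, w, h1, h3⟩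

end Pool.Agent.SprP
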