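import Pool.Agent.SprP.OSP
import Pool.Agent.SprJ.GateQ

/-!
# Integer polynomial systems with parameters are gate systems with parameters
(MP_3a0658_ag)   (helper8, after `GateQ.lean`)
-/

set_option autoImplicit false

open MvPolynomial

namespace Pool.Agent.SprP

open Pool.Agent.SprJ hiding S_Lay S_Tr S_An S_Cur S_Pts Lay_ex
open Pool.Agent.SprF hiding S_Lay S_Tr S_An S_Cur S_Pts

open scoped Classical in
/-- the variables `q l` of the polynomials are prescribed -/
theorem GateP (a b g : ℕ) (f : Fin b → MvPolynomial (Fin a) ℤ) (q : Fin g → Fin a)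
    (hq : Function.Injective q) :
    ∃ (N M : ℕ) (gate : Fin M → Bool × Fin N × Fin N × Fin N) (one : Fin N) (pr : Fin g → Fin N),
      Function.Injective pr ∧ N + M + 1 ≤ 12 * (1 + g + ∑ l, (1 + len (f l))) ∧
      ∀ (K : Type) [Field K] (γ : Fin g → K),
        GSolP K gate one pr γ ↔
          ∃ x : Fin a → K, (∀ l, x (q l) = γ l) ∧ ∀ l, MvPolynomial.aeval x (f l) = 0 := by
  choose L hF hlen using fun l => forces (f l)
  have hv := fun l => (hF l).1
  have hL := fun l => (hF l).2
  -- all gates
  let Z : List (Bool × MvPolynomial (Fin a) ℤ × MvPolynomial (Fin a) ℤ ×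
    MvPolynomial (Fin a) ℤ) := (List.finRange b).map fun l => (false, f l, f l, f l)
  let T := (List.finRange b).flatMap L ++ Z
  have hT : T.length ≤ ∑ l, (2 + 3 * len (f l)) := by
    have h1 : T.length = (∑ l, (L l).length) + b := by
      simp only [T, Z, List.length_append, List.length_flatMap, List.length_map,
        List.length_finRange]
      congr 1
    rw [h1]
    calc (∑ l, (L l).length) + b = ∑ l : Fin b, ((L l).length + 1) := by
          rw [Finset.sum_add_distrib]; simp
      _ ≤ ∑ l, (2 + 3 * len (f l)) := Finset.sum_le_sum fun l _ => by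
          have := hlen l
          omega
  let Q : List (MvPolynomial (Fin a) ℤ) := (List.finRange g).map fun l => X (q l)
  let S : Finset (MvPolynomial (Fin a) ℤ) := insert 1 (T.map (fun g => g.2.1) ++
    T.map (fun g => g.2.2.1) ++ T.map (fun g => g.2.2.2) ++ Q).toFinset
  have hScard : S.card ≤ 3 * T.length + g + 1 := by
    refine (Finset.card_insert_le _ _).trans ?_
    refine Nat.add_le_add_right ((List.toFinset_card_le _).trans ?_) 1
    simp only [List.length_append, List.length_map, Q, List.length_finRange]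
    omega
  have h1S : (1 : MvPolynomial (Fin a) ℤ) ∈ S := Finset.mem_insert_self _ _
  have hS1 : ∀ g ∈ T, g.2.1 ∈ S := fun g hg => Finset.mem_insert_of_mem (by
    rw [List.mem_toFinset]
    exact List.mem_append_left _ (List.mem_append_left _ (List.mem_append_left _
      (List.mem_map_of_mem hg))))
  have hS2 : ∀ g ∈ T, g.2.2.1 ∈ S := fun g hg => Finset.mem_insert_of_mem (by
    rw [List.mem_toFinset]
    exact List.mem_append_left _ (List.mem_append_left _ (List.mem_append_right _
      (List.mem_map_of_mem hg))))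
  have hS3 : ∀ g ∈ T, g.2.2.2 ∈ S := fun g hg => Finset.mem_insert_of_mem (by
    rw [List.mem_toFinset]
    exact List.mem_append_left _ (List.mem_append_right _ (List.mem_map_of_mem hg)))
  have hSQ : ∀ l, (X (q l) : MvPolynomial (Fin a) ℤ) ∈ S := fun l => Finset.mem_insert_of_mem (by
    rw [List.mem_toFinset]
    exact List.mem_append_right _ (List.mem_map.2 ⟨l, List.mem_finRange l, rfl⟩))
  let e := S.equivFin
  refine ⟨S.card, T.length, fun g => ((T.get g).1, e ⟨(T.get g).2.1, hS1 _ (List.get_mem _ _)⟩,
    e ⟨(T.get g).2.2.1, hS2 _ (List.get_mem _ _)⟩, e ⟨(T.get g).2.2.2, hS3 _ (List.get_mem _ _)⟩),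
    e ⟨1, h1S⟩, fun l => e ⟨X (q l), hSQ l⟩, ?_, ?_, fun K _ γ => ⟨?_, ?_⟩⟩
  · intro l l' h
    have h1 := congrArg Subtype.val (e.injective h)
    exact hq (MvPolynomial.X_injective h1)
  · have h2 : ∑ l, (2 + 3 * len (f l)) ≤ 3 * ∑ l, (1 + len (f l)) := by
      rw [Finset.mul_sum]
      exact Finset.sum_le_sum fun l _ => by omega
    omega
  · rintro ⟨x, hx1, hxq, hx⟩
    let y : MvPolynomial (Fin a) ℤ → K := fun p => if h : p ∈ S then x (e ⟨p, h⟩) else 0
    have hyS : ∀ (p : MvPolynomial (Fin a) ℤ) (h : p ∈ S), y p = x (e ⟨p, h⟩) := fun p h =>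
      dif_pos h
    have hy1 : y 1 = 1 := by rw [hyS 1 h1S]; exact hx1
    have hyT : ∀ g ∈ T, gateHolds y g := by
      intro g hg
      obtain ⟨k, rfl⟩ := List.get_of_mem hg
      have h := hx k
      unfold gateHolds
      rw [hyS _ (hS1 _ (List.get_mem _ _)), hyS _ (hS2 _ (List.get_mem _ _)),
        hyS _ (hS3 _ (List.get_mem _ _))]
      exact h
    refine ⟨fun i => y (X i), fun l => ?_, fun l => ?_⟩
    · show y (X (q l)) = γ l
      rw [hyS _ (hSQ l)]
      exact hxq l
    · have h0 : y (f l) = 0 := by
        have h := hyT (false, f l, f l, f l) (List.mem_append_right _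
          (List.mem_map_of_mem (List.mem_finRange l)))
        simp only [gateHolds, Bool.false_eq_true, if_false] at h
        linear_combination h
      rw [← h0]
      exact (hL l K y hy1 fun g hg => hyT g (List.mem_append_left _
        (List.mem_flatMap.2 ⟨l, List.mem_finRange l, hg⟩))).symm
  · rintro ⟨x, hxq, hx⟩
    have hyT : ∀ g ∈ T, gateHolds (fun p : MvPolynomial (Fin a) ℤ => aeval x p) g := by
      intro g hg
      rcases List.mem_append.1 hg with hg | hg
      · obtain ⟨l, _, hg⟩ := List.mem_flatMap.1 hg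
        exact gateHolds_of_valid x g (hv l g hg)
      · obtain ⟨l, _, rfl⟩ := List.mem_map.1 hg
        simp [gateHolds, hx l]
    refine ⟨fun k => aeval x ((e.symm k : S) : MvPolynomial (Fin a) ℤ), ?_, fun l => ?_,
      fun g => ?_⟩
    · simp
    · simp [hxq]
    · have h := hyT _ (List.get_mem T g)
      simpa [gateHolds] using h

end Pool.Agent.SprP
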