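import Pool.Agent.SprP.MainP
import Pool.Agent.Lib_helper58.Spr.RankCrit

/-!
# A line of matrices along which the answer changes at `2^k` real points
(MP_3a0658_ag)   (helper8, after helper58's `Degree.lean`)
-/

set_option autoImplicit false

open Matrix

namespace Pool.Agent.SprP

open Pool.Agent.SprJ hiding S_Lay S_Tr S_An S_Cur S_Pts Lay_ex
open Pool.Agent.SprF hiding S_Lay S_Tr S_An S_Cur S_Pts

/-! ### the iteration `y ↦ y² - 2` -/

/-- `y_0 = c`, `y_{i+1} = y_i² - 2` -/
def cv {K : Type*} [Field K] (c : K) : ℕ → K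
  | 0 => c
  | i + 1 => cv c i ^ 2 - 2

/-- the same as a polynomial -/
noncomputable def Cp : ℕ → Polynomial ℤ
  | 0 => Polynomial.X
  | i + 1 => Cp i ^ 2 - Polynomial.C 2

lemma Cp_monic (i : ℕ) : (Cp i).Monic ∧ (Cp i).natDegree = 2 ^ i := by
  induction i with
  | zero => exact ⟨Polynomial.monic_X, by simp [Cp]⟩
  | succ i ih =>
    have h1 : (Cp i ^ 2).Monic := ih.1.pow 2
    have h2 : (Cp i ^ 2).natDegree = 2 ^ (i + 1) := by
      rw [ih.1.natDegree_pow, ih.2, pow_succ]; ring
    have h3 : (Polynomial.C (2 : ℤ)).degree < (Cp i ^ 2).degree := by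
      rw [Polynomial.degree_eq_natDegree h1.ne_zero, h2]
      refine lt_of_le_of_lt Polynomial.degree_C_le ?_
      exact_mod_cast (by positivity : 0 < 2 ^ (i + 1))
    refine ⟨h1.sub_of_left h3, ?_⟩
    show (Cp i ^ 2 - Polynomial.C 2).natDegree = _
    rw [Polynomial.natDegree_sub_C, h2]

lemma Cp_mod (i : ℕ) : (Cp i).map (Int.castRingHom (ZMod 2)) = Polynomial.X ^ (2 ^ i) := by
  induction i with
  | zero => simp [Cp]
  | succ i ih =>
    have h2 : (Polynomial.C (2 : ℤ)).map (Int.castRingHom (ZMod 2)) = 0 := by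
      rw [Polynomial.map_C]
      have : (Int.castRingHom (ZMod 2)) 2 = 0 := by decide
      rw [this, Polynomial.C_0]
    simp only [Cp, Polynomial.map_sub, Polynomial.map_pow, ih, h2, sub_zero]
    rw [← pow_mul, pow_succ]

lemma Cp_const (i : ℕ) : (Cp (i + 1)).coeff 0 = 2 ∨ (Cp (i + 1)).coeff 0 = -2 := by
  induction i with
  | zero =>
    right
    rw [Polynomial.coeff_zero_eq_eval_zero]
    simp [Cp]
  | succ i ih =>
    left
    rw [Polynomial.coeff_zero_eq_eval_zero] at ih ⊢
    show Polynomial.eval 0 (Cp (i + 1) ^ 2 - Polynomial.C 2) = 2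
    rw [Polynomial.eval_sub, Polynomial.eval_pow, Polynomial.eval_C]
    rcases ih with h | h <;> rw [h] <;> norm_num

lemma Cp_irr (k : ℕ) : Irreducible (Cp k) := by
  cases k with
  | zero => exact Polynomial.irreducible_X
  | succ i =>
    obtain ⟨hmon, hdeg⟩ := Cp_monic (i + 1)
    have hpos : 0 < 2 ^ (i + 1) := by positivity
    have hprime : (Ideal.span {(2 : ℤ)}).IsPrime := by
      rw [Ideal.span_singleton_prime (by norm_num)]
      exact Int.prime_two
    have hdeg' : (Cp (i + 1)).degree = (2 ^ (i + 1) : ℕ) := by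
      rw [Polynomial.degree_eq_natDegree hmon.ne_zero, hdeg]
    apply Polynomial.irreducible_of_eisenstein_criterion hprime
    · rw [hmon.leadingCoeff, Ideal.mem_span_singleton]
      norm_num
    · intro m hm
      rw [hdeg', Nat.cast_lt] at hm
      rw [Ideal.mem_span_singleton]
      have h1 := congrArg (fun p => Polynomial.coeff p m) (Cp_mod (i + 1))
      simp only [Polynomial.coeff_map, Polynomial.coeff_X_pow, if_neg hm.ne] at h1
      exact (ZMod.intCast_zmod_eq_zero_iff_dvd _ 2).1 h1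
    · rw [hdeg']; exact_mod_cast hpos
    · rw [Ideal.span_singleton_pow, Ideal.mem_span_singleton]
      rcases Cp_const i with h | h <;> rw [h] <;> norm_num
    · exact hmon.isPrimitive

/-- the polynomial over `ℚ` -/
noncomputable def Cq' (k : ℕ) : Polynomial ℚ := (Cp k).map (Int.castRingHom ℚ)

lemma Cq_monic (k : ℕ) : (Cq' k).Monic := (Cp_monic k).1.map _

lemma Cq_deg (k : ℕ) : (Cq' k).natDegree = 2 ^ k := by
  rw [Cq', (Cp_monic k).1.natDegree_map, (Cp_monic k).2]

lemma Cq_irr (k : ℕ) : Irreducible (Cq' k) :=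
  (Polynomial.IsPrimitive.Int.irreducible_iff_irreducible_map_cast
    (Cp_monic k).1.isPrimitive).1 (Cp_irr k)

lemma Cq_aeval {K : Type*} [Field K] [Algebra ℚ K] (c : K) (k : ℕ) :
    Polynomial.aeval c (Cq' k) = cv c k := by
  induction k with
  | zero => simp [Cq', Cp, cv]
  | succ k ih =>
    have h : Cq' (k + 1) = Cq' k ^ 2 - Polynomial.C 2 := by
      simp only [Cq', Cp, Polynomial.map_sub, Polynomial.map_pow, Polynomial.map_C]
      congr 2
    rw [h, map_sub, map_pow, ih, Polynomial.aeval_C]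
    show cv c k ^ 2 - algebraMap ℚ K 2 = cv c k ^ 2 - 2
    rw [map_ofNat]

lemma small_zero {K : Type*} [Field K] [Algebra ℚ K] {k : ℕ} {c : K} (hc : cv c k = 0)
    {Q : Polynomial ℚ} (hQ : Q.natDegree < 2 ^ k) (h : Polynomial.aeval c Q = 0) : Q = 0 := by
  have hmin : Cq' k = minpoly ℚ c :=
    minpoly.eq_of_irreducible_of_monic (Cq_irr k) (by rw [Cq_aeval, hc]) (Cq_monic k)
  have hdvd : minpoly ℚ c ∣ Q := minpoly.dvd ℚ c h
  rw [← hmin] at hdvd
  apply Polynomial.eq_zero_of_dvd_of_natDegree_lt hdvd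
  rwa [Cq_deg]

/-- real roots -/
lemma cv_cos (θ : ℝ) (k : ℕ) : cv (2 * Real.cos θ) k = 2 * Real.cos (2 ^ k * θ) := by
  induction k with
  | zero => simp [cv]
  | succ k ih =>
    show cv (2 * Real.cos θ) k ^ 2 - 2 = _
    have h : (2 : ℝ) ^ (k + 1) * θ = 2 * (2 ^ k * θ) := by ring
    rw [ih, h, Real.cos_two_mul]
    ring

/-- the `2^k` real roots -/
noncomputable def rt (k : ℕ) : Finset ℝ :=
  (Finset.range (2 ^ k)).image fun j : ℕ =>
    2 * Real.cos ((2 * (j : ℝ) + 1) * Real.pi / 2 ^ (k + 1))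

lemma rt_root {k : ℕ} {t : ℝ} (ht : t ∈ rt k) : cv t k = 0 := by
  obtain ⟨j, -, rfl⟩ := Finset.mem_image.1 ht
  rw [cv_cos]
  have h1 : (2 : ℝ) ^ k * ((2 * j + 1) * Real.pi / 2 ^ (k + 1)) = (2 * (j : ℤ) + 1) * Real.pi / 2 := by
    rw [pow_succ]
    field_simp
    push_cast
    ring
  rw [h1, mul_eq_zero]
  right
  rw [Real.cos_eq_zero_iff]
  exact ⟨j, rfl⟩

lemma rt_card (k : ℕ) : (rt k).card = 2 ^ k := by
  unfold rt
  rw [Finset.card_image_of_injOn, Finset.card_range]
  intro i hi j hj hij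
  have hi' : i < 2 ^ k := Finset.mem_range.1 hi
  have hj' : j < 2 ^ k := Finset.mem_range.1 hj
  have hb : ∀ i : ℕ, i < 2 ^ k → (2 * (i : ℝ) + 1) * Real.pi / 2 ^ (k + 1) ∈ Set.Icc 0 Real.pi := by
    intro i hi
    have h2 : (0 : ℝ) < 2 ^ (k + 1) := by positivity
    have h3 : (2 * (i : ℝ) + 1) ≤ 2 ^ (k + 1) := by
      have : 2 * i + 1 ≤ 2 ^ (k + 1) := by rw [pow_succ]; omega
      exact_mod_cast this
    constructor
    · have := Real.pi_pos
      positivity
    · rw [div_le_iff₀ h2, mul_comm Real.pi]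
      exact mul_le_mul_of_nonneg_right h3 Real.pi_pos.le
  have h1 : Real.cos ((2 * (i : ℝ) + 1) * Real.pi / 2 ^ (k + 1)) =
      Real.cos ((2 * (j : ℝ) + 1) * Real.pi / 2 ^ (k + 1)) := by
    have := hij
    simp only at this
    linarith
  have h2 := Real.injOn_cos (hb i hi') (hb j hj') h1
  have h3 : (0 : ℝ) < 2 ^ (k + 1) := by positivity
  have h6 : (i : ℝ) = j := by
    field_simp at h2
    linarith
  exact_mod_cast h6

/-! ### the gate system -/

/-- the gate system: `0` is `1`, `1` is `2`, `2 + i` is `y_i`, `k + 3 + i` is `y_i²` -/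
def chG (k : ℕ) : Gt (2 * k + 3) (2 * k + 2) := fun m =>
  if h : (m : ℕ) < k then (true, ⟨2 + m, by omega⟩, ⟨2 + m, by omega⟩, ⟨k + 3 + m, by omega⟩)
  else if h : (m : ℕ) < 2 * k then
    (false, ⟨3 + (m - k), by omega⟩, ⟨1, by omega⟩, ⟨k + 3 + (m - k), by omega⟩)
  else if (m : ℕ) = 2 * k then (false, ⟨0, by omega⟩, ⟨0, by omega⟩, ⟨1, by omega⟩)
  else (false, ⟨k + 2, by omega⟩, ⟨k + 2, by omega⟩, ⟨k + 2, by omega⟩)

theorem chG_sol (k : ℕ) {K : Type} [Field K] (c : K) :
    GSolP K (chG k) ⟨0, by omega⟩ (fun _ : Fin 1 => ⟨2, by omega⟩) (fun _ => c) ↔ cv c k = 0 := by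
  constructor
  · rintro ⟨x, h0, hp, hg⟩
    have hc : x ⟨2, by omega⟩ = c := hp 0
    have h2 : x ⟨1, by omega⟩ = 2 := by
      have := hg ⟨2 * k, by omega⟩
      simp only [chG, show ¬ (2 * k < k) by omega, dite_false, lt_irrefl, if_true,
        Bool.false_eq_true, if_false] at this
      rw [← this, h0]
      norm_num
    have key : ∀ i (hi : i ≤ k), x ⟨2 + i, by omega⟩ = cv c i := by
      intro i
      induction i with
      | zero => intro _; exact hc
      | succ i ih =>
        intro hi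
        have h3 := ih (by omega)
        have h4 := hg ⟨i, by omega⟩
        have h5 := hg ⟨k + i, by omega⟩
        simp only [chG, show i < k by omega, dite_true, if_true] at h4
        simp only [chG, show ¬ (k + i < k) by omega, dite_false, show k + i < 2 * k by omega,
          dite_true, Nat.add_sub_cancel_left, Bool.false_eq_true, if_false] at h5
        have e1 : (⟨3 + i, by omega⟩ : Fin (2 * k + 3)) = ⟨2 + (i + 1), by omega⟩ :=
          Fin.ext (by show 3 + i = 2 + (i + 1); omega)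
        rw [e1, h2, ← h4, h3] at h5
        show _ = cv c i ^ 2 - 2
        linear_combination h5
    have h6 := hg ⟨2 * k + 1, by omega⟩
    simp only [chG, show ¬ (2 * k + 1 < k) by omega, show ¬ (2 * k + 1 < 2 * k) by omega,
      show ¬ (2 * k + 1 = 2 * k) by omega, dite_false, Bool.false_eq_true, if_false] at h6
    have e2 : (⟨k + 2, by omega⟩ : Fin (2 * k + 3)) = ⟨2 + k, by omega⟩ := Fin.ext (by
      show k + 2 = 2 + k; omega)
    rw [e2, key k le_rfl] at h6
    linear_combination h6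
  · intro hc
    refine ⟨fun i => if (i : ℕ) = 0 then 1 else if (i : ℕ) = 1 then 2 else
      if (i : ℕ) ≤ k + 2 then cv c ((i : ℕ) - 2) else cv c ((i : ℕ) - (k + 3)) ^ 2, rfl, ?_, ?_⟩
    · intro l
      simp [cv]
    · intro m
      by_cases h1 : (m : ℕ) < k
      · simp only [chG, h1, dite_true, if_true]
        rw [if_neg (by omega), if_neg (by omega), if_pos (by omega), if_neg (by omega),
          if_neg (by omega), if_neg (by omega), show 2 + (m : ℕ) - 2 = m by omega,
          show k + 3 + (m : ℕ) - (k + 3) = m by omega]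
        ring
      · by_cases h2 : (m : ℕ) < 2 * k
        · simp only [chG, h1, h2, dite_true, dite_false, Bool.false_eq_true, if_false]
          rw [if_neg (by omega), if_neg (by omega), if_pos (by omega), if_neg (by omega),
            if_pos trivial, if_neg (by omega), if_neg (by omega), if_neg (by omega),
            show 3 + ((m : ℕ) - k) - 2 = (m - k) + 1 by omega,
            show k + 3 + ((m : ℕ) - k) - (k + 3) = m - k by omega]
          simp only [cv]
          norm_num
        · by_cases h3 : (m : ℕ) = 2 * k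
          · simp only [chG, h3, show ¬ (2 * k < k) by omega, dite_false, lt_irrefl, if_true,
              Bool.false_eq_true, if_false]
            norm_num
          · simp only [chG, h1, h2, h3, dite_false, Bool.false_eq_true, if_false]
            rw [if_neg (by omega), if_neg (by omega), if_pos (by omega),
              show k + 2 - 2 = k by omega, hc, add_zero]

/-- **a line of matrices** -/
theorem line (k : ℕ) : ∃ (n r : ℕ) (Xp : Matrix (Fin n) (Fin n) (Polynomial ℚ))
    (v w : Equiv.Perm (Fin n)), n ≤ 28000 * (2 * k + 3) ^ 2 ∧ (w⁻¹ * v) ^ 2 = 1 ∧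
    (∀ i j, (Xp i j).natDegree ≤ 1) ∧
    ∀ (K : Type) [Field K] [Algebra ℚ K] [Infinite K] (c : K),
      (∀ i j, j ≤ i → (Xp.map (Polynomial.aeval c)) i j = 0) ∧
      Type4 r (Xp.map (Polynomial.aeval c)) ∧
      InSpringer (Xp.map (Polynomial.aeval c)) (perm K v) ∧
      InSpringer (Xp.map (Polynomial.aeval c)) (perm K w) ∧
      (InClosure (Xp.map (Polynomial.aeval c)) v w ↔ cv c k = 0) := by
  obtain ⟨n, r, v, w, ε, T, hn, hvw, -, -, -, h⟩ := locMainP (2 * k + 3) (2 * k + 2) 1
    ⟨0, by omega⟩ (fun _ => ⟨2, by omega⟩) (fun a b _ => Subsingleton.elim a b)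
  let e : Option (Option (Fin 1)) → Polynomial ℚ := fun o => match o with
    | none => 0
    | some none => 1
    | some (some _) => Polynomial.X
  let Xp : Matrix (Fin n) (Fin n) (Polynomial ℚ) := Matrix.of fun i j =>
    Polynomial.C (jordan ℚ (ε (chG k)) i j) + e (T i j)
  have hXp : ∀ (K : Type) [Field K] [Algebra ℚ K] (c : K),
      Xp.map (Polynomial.aeval c) = XT K (ε (chG k)) T (fun _ => c) := by
    intro K _ _ c
    ext i j
    rw [XT, Matrix.map_apply, Matrix.add_apply, Matrix.of_apply]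
    show Polynomial.aeval c (Polynomial.C (jordan ℚ (ε (chG k)) i j) + e (T i j)) = _
    rw [map_add]
    congr 1
    · rw [Polynomial.aeval_C]
      simp only [jordan, Matrix.of_apply]
      split_ifs <;> simp
    · rcases T i j with _ | (_ | l)
      · simp [e, val]
      · simp [e, val]
      · simp [e, val]
  refine ⟨n, r, Xp, v, w, ?_, hvw, ?_, ?_⟩
  · calc n ≤ 7000 * (2 * k + 3 + (2 * k + 2) + 1) ^ 2 := hn
      _ = 28000 * (2 * k + 3) ^ 2 := by ring
  · intro i j
    simp only [Xp, Matrix.of_apply]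
    refine (Polynomial.natDegree_add_le _ _).trans (max_le ?_ ?_)
    · simp
    · rcases T i j with _ | (_ | l) <;> simp [e]
  · intro K _ _ _ c
    rw [hXp]
    obtain ⟨-, h1, ⟨b, hb, hb'⟩, h3, h4, h5⟩ := h (chG k) K (fun _ => c)
    exact ⟨h1, ⟨ε (chG k), b, hb, hb'⟩, h3, h4, h5.trans (chG_sol k c)⟩

end Pool.Agent.SprP
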