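import Pool.Agent.SprP.Defs

/-!
# Prescribed values as linked coordinates (MP_3a0658_ag)   (helper8)

* `VSol`: orthogonality systems with supports, and prescribed values `Y i x = - κ i x * lam x` for the
  pairs `(i, x)` in `Kp`, with free scalars `lam x`;
* `RSol`: relations `Y_i · Z_j + κ i j * lam j = 0` on one index set;
* `fullK_iff`: the former are the latter (dual bases);
* `privK_iff`: the latter are displaced orthogonality systems with all pairs related.
-/

set_option autoImplicit false

open Matrix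

namespace Pool.Agent.SprP

open Pool.Agent.SprJ hiding S_Lay S_Tr S_An S_Cur S_Pts Lay_ex
open Pool.Agent.SprF hiding S_Lay S_Tr S_An S_Cur S_Pts

/-- orthogonality systems with prescribed values -/
def VSol (K : Type*) [Field K] {I C : Type} [Fintype C] (sY sZ : I → C → Prop)
    (Sg : I → I → Prop) (Kp : I → C → Prop) (κ : I → C → K) : Prop :=
  ∃ (Y Z : I → C → K) (lam : C → K), (∀ i x, ¬ sY i x → Y i x = 0) ∧
    (∀ i x, ¬ sZ i x → Z i x = 0) ∧ (∀ i j, i ≠ j → Sg i j → ∑ x, Y i x * Z j x = 0) ∧
    (∀ i, ∑ x, Y i x * Z i x ≠ 0) ∧ ∀ i x, Kp i x → Y i x + κ i x * lam x = 0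

/-- linked orthogonality relations -/
def RSol (K : Type*) [Field K] {P C : Type} [Fintype C] (Sg : P → P → Prop) (κ : P → P → K) :
    Prop :=
  ∃ (Y Z : P → C → K) (lam : P → K),
    (∀ i j, i ≠ j → Sg i j → ∑ x, Y i x * Z j x + κ i j * lam j = 0) ∧
    ∀ i, ∑ x, Y i x * Z i x ≠ 0

section Full

variable {p q : ℕ}

/-- relations which encode the supports and the prescribed values -/
def SgV (sY sZ : Fin p → Fin q → Prop) (Sg : Fin p → Fin p → Prop) (Kp : Fin p → Fin q → Prop) :
    Fin p ⊕ Fin q → Fin p ⊕ Fin q → Prop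
  | .inl i, .inl j => Sg i j
  | .inl i, .inr x => ¬ sY i x ∨ Kp i x
  | .inr x, .inl j => ¬ sZ j x
  | .inr _, .inr _ => True

/-- the coefficients -/
def kV {K : Type*} [Field K] (κ : Fin p → Fin q → K) : Fin p ⊕ Fin q → Fin p ⊕ Fin q → K
  | .inl i, .inr x => κ i x
  | _, _ => 0

theorem fullK_iff (K : Type) [Field K] (sY sZ : Fin p → Fin q → Prop) (Sg : Fin p → Fin p → Prop)
    (Kp : Fin p → Fin q → Prop) (κ : Fin p → Fin q → K) (hκ : ∀ i x, ¬ sY i x → κ i x = 0) :
    RSol K (C := Fin q) (SgV sY sZ Sg Kp) (kV κ) ↔ VSol K sY sZ Sg Kp κ := by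
  constructor
  · rintro ⟨Y, Z, lam, hor, hne⟩
    let A : Matrix (Fin q) (Fin q) K := Matrix.of fun x y => Y (.inr x) y
    let B : Matrix (Fin q) (Fin q) K := Matrix.of fun y x => Z (.inr x) y
    let δ : Fin q → K := fun x => ∑ y, Y (.inr x) y * Z (.inr x) y
    have hδ : ∀ x, δ x ≠ 0 := fun x => hne (.inr x)
    have hAB : A * B = Matrix.diagonal δ := by
      ext x x'
      rw [Matrix.mul_apply, Matrix.diagonal_apply]
      split_ifs with h
      · subst h; rfl
      · have h5 := hor (.inr x) (.inr x') (fun h' => h (Sum.inr.inj h')) trivial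
        have h6 : kV κ (.inr x) (.inr x') = 0 := rfl
        rw [h6, zero_mul, add_zero] at h5
        exact h5
    have h1 : (Matrix.diagonal (fun x => (δ x)⁻¹) * A) * B = 1 := by
      rw [Matrix.mul_assoc, hAB, Matrix.diagonal_mul_diagonal]
      rw [← Matrix.diagonal_one]
      congr 1
      funext x
      exact inv_mul_cancel₀ (hδ x)
    have h2 : B * (Matrix.diagonal (fun x => (δ x)⁻¹) * A) = 1 := mul_eq_one_comm.1 h1
    -- the pairing in the new coordinates
    have key : ∀ y z : Fin q → K, ∑ x, (∑ u, y u * Z (.inr x) u) * ((δ x)⁻¹ * ∑ u, Y (.inr x) u * z u)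
        = ∑ u, y u * z u := by
      intro y z
      have h3 : y ⬝ᵥ ((B * (Matrix.diagonal (fun x => (δ x)⁻¹) * A)) *ᵥ z) = y ⬝ᵥ z := by
        rw [h2, Matrix.one_mulVec]
      rw [← Matrix.mulVec_mulVec, Matrix.dotProduct_mulVec, ← Matrix.mulVec_mulVec] at h3
      have h4 : y ⬝ᵥ z = ∑ u, y u * z u := rfl
      rw [← h4, ← h3]
      unfold dotProduct
      refine Finset.sum_congr rfl fun x _ => ?_
      rw [Matrix.mulVec_diagonal]
      rfl
    refine ⟨fun i x => ∑ u, Y (.inl i) u * Z (.inr x) u,
      fun j x => (δ x)⁻¹ * ∑ u, Y (.inr x) u * Z (.inl j) u, fun x => lam (.inr x), ?_, ?_, ?_, ?_, ?_⟩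
    · intro i x h
      have h5 := hor (.inl i) (.inr x) (by simp) (Or.inl h)
      have h6 : kV κ (.inl i) (.inr x) = 0 := hκ i x h
      rw [h6, zero_mul, add_zero] at h5
      exact h5
    · intro j x h
      show (δ x)⁻¹ * _ = 0
      have h5 := hor (.inr x) (.inl j) (by simp) h
      have h6 : kV κ (.inr x) (.inl j) = 0 := rfl
      rw [h6, zero_mul, add_zero] at h5
      rw [h5, mul_zero]
    · intro i j hij h
      rw [key]
      have h5 := hor (.inl i) (.inl j) (fun h' => hij (Sum.inl.inj h')) h
      have h6 : kV κ (.inl i) (.inl j) = 0 := rfl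
      rw [h6, zero_mul, add_zero] at h5
      exact h5
    · intro i
      rw [key]
      exact hne (.inl i)
    · intro i x h
      exact hor (.inl i) (.inr x) (by simp) (Or.inr h)
  · rintro ⟨Y, Z, lam, hY, hZ, hor, hne, hv⟩
    refine ⟨fun l => match l with
      | .inl i => Y i
      | .inr x => Pi.single x 1, fun l => match l with
      | .inl i => Z i
      | .inr x => Pi.single x 1, fun l => match l with
      | .inl _ => 0
      | .inr x => lam x, ?_, ?_⟩
    · rintro (i | x) (j | x') hij h
      · show ∑ x, Y i x * Z j x + 0 * 0 = 0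
        rw [hor i j (fun h' => hij (by rw [h'])) h, zero_mul, add_zero]
      · show ∑ y, Y i y * (Pi.single x' 1 : Fin q → K) y + κ i x' * lam x' = 0
        rw [Finset.sum_eq_single x']
        · rw [Pi.single_eq_same, mul_one]
          rcases h with h | h
          · rw [hY i x' h, hκ i x' h, zero_mul, add_zero]
          · exact hv i x' h
        · intro y _ hy
          rw [Pi.single_eq_of_ne hy, mul_zero]
        · simp
      · show ∑ y, (Pi.single x 1 : Fin q → K) y * Z j y + 0 * 0 = 0
        rw [Finset.sum_eq_single x]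
        · rw [hZ j x h, mul_zero, mul_zero, add_zero]
        · intro y _ hy
          rw [Pi.single_eq_of_ne hy, zero_mul]
        · simp
      · show ∑ y, (Pi.single x 1 : Fin q → K) y * (Pi.single x' 1 : Fin q → K) y + 0 * lam x' = 0
        have hne' : x ≠ x' := fun h' => hij (by rw [h'])
        rw [Finset.sum_eq_single x]
        · rw [Pi.single_eq_of_ne hne', mul_zero, zero_mul, add_zero]
        · intro y _ hy
          rw [Pi.single_eq_of_ne hy, zero_mul]
        · simp
    · rintro (i | x)
      · exact hne i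
      · show ∑ y, (Pi.single x 1 : Fin q → K) y * (Pi.single x 1 : Fin q → K) y ≠ 0
        rw [Finset.sum_eq_single x]
        · simp
        · intro y _ hy
          rw [Pi.single_eq_of_ne hy, zero_mul]
        · simp

end Full

/-- transport along equivalences of the index sets -/
lemma RSol_equiv {K : Type*} [Field K] {P P' C : Type} [Fintype C] (e : P ≃ P')
    (Sg : P → P → Prop) (κ : P → P → K) :
    RSol K (C := C) (fun i j => Sg (e.symm i) (e.symm j)) (fun i j => κ (e.symm i) (e.symm j)) ↔
      RSol K (C := C) Sg κ := by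
  constructor
  · rintro ⟨Y, Z, lam, h1, h2⟩
    refine ⟨fun i => Y (e i), fun i => Z (e i), fun i => lam (e i), ?_, fun i => h2 _⟩
    intro i j hij h
    have := h1 (e i) (e j) (fun h => hij (e.injective h)) (by simpa using h)
    simpa using this
  · rintro ⟨Y, Z, lam, h1, h2⟩
    refine ⟨fun i => Y (e.symm i), fun i => Z (e.symm i), fun i => lam (e.symm i), ?_,
      fun i => h2 _⟩
    intro i j hij h
    exact h1 _ _ (fun h => hij (e.symm.injective h)) h

/-- transport along equivalences of the index sets -/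
lemma VSol_equiv {K : Type*} [Field K] {I C I' C' : Type} [Fintype C] [Fintype C'] (eI : I ≃ I')
    (eC : C ≃ C') (sY sZ : I → C → Prop) (Sg : I → I → Prop) (Kp : I → C → Prop) (κ : I → C → K) :
    VSol K (fun i x => sY (eI.symm i) (eC.symm x)) (fun i x => sZ (eI.symm i) (eC.symm x))
      (fun i j => Sg (eI.symm i) (eI.symm j)) (fun i x => Kp (eI.symm i) (eC.symm x))
      (fun i x => κ (eI.symm i) (eC.symm x)) ↔ VSol K sY sZ Sg Kp κ := by
  constructor
  · rintro ⟨Y, Z, lam, h1, h2, h3, h4, h5⟩
    refine ⟨fun i x => Y (eI i) (eC x), fun i x => Z (eI i) (eC x), fun x => lam (eC x),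
      ?_, ?_, ?_, ?_, ?_⟩
    · intro i x h; exact h1 _ _ (by simpa using h)
    · intro i x h; exact h2 _ _ (by simpa using h)
    · intro i j hij hS
      rw [Equiv.sum_comp eC (fun x => Y (eI i) x * Z (eI j) x)]
      exact h3 _ _ (fun h => hij (eI.injective h)) (by simpa using hS)
    · intro i
      rw [Equiv.sum_comp eC (fun x => Y (eI i) x * Z (eI i) x)]
      exact h4 _
    · intro i x h
      have := h5 (eI i) (eC x) (by simpa using h)
      simpa using this
  · rintro ⟨Y, Z, lam, h1, h2, h3, h4, h5⟩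
    refine ⟨fun i x => Y (eI.symm i) (eC.symm x), fun i x => Z (eI.symm i) (eC.symm x),
      fun x => lam (eC.symm x), ?_, ?_, ?_, ?_, ?_⟩
    · intro i x h; exact h1 _ _ h
    · intro i x h; exact h2 _ _ h
    · intro i j hij hS
      rw [Equiv.sum_comp eC.symm (fun x => Y (eI.symm i) x * Z (eI.symm j) x)]
      exact h3 _ _ (fun h => hij (eI.symm.injective h)) hS
    · intro i
      rw [Equiv.sum_comp eC.symm (fun x => Y (eI.symm i) x * Z (eI.symm i) x)]
      exact h4 _
    · intro i x h
      exact h5 _ _ h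

section Switch

variable {P : ℕ} (act : Fin P → Fin P → Bool → Prop)

/-- coordinates: `k` ordinary ones, two for every pair, and the linked ones -/
abbrev Cl (P k : ℕ) : Type := Cq P k ⊕ Fin P

/-- supports of the first vectors -/
def sYl (k : ℕ) (i : Fin P) : Cl P k → Prop
  | .inl x => sYq act k i x
  | .inr _ => False

/-- supports of the second vectors -/
def sZl (k : ℕ) (j : Fin P) : Cl P k → Prop
  | .inl x => sZq k j x
  | .inr c => c = j

/-- the displacement -/
def kl {K : Type*} [Field K] (k : ℕ) (κ : Fin P → Fin P → K) : Cl P k → Fin P → K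
  | .inr j, i => κ i j
  | _, _ => 0

open Classical in
/-- the four rank functions -/
noncomputable def rkl (k : ℕ) (t : ℕ) : Lb (Fin P) (Cl P k) → ℕ := match t with
  | 0 => fun
    | .a _ => 0
    | .c (.inl (.inl _)) => 2 * P + 2
    | .c (.inl (.inr c)) => if c.2.2 = false then 2 * (c.2.1 : ℕ) + 2 else 0
    | .c (.inr j) => 2 * (j : ℕ) + 2
    | .c' _ => 2 * P + 2
    | .d j => 2 * (j : ℕ) + 1
  | 1 => fun
    | .a _ => 2 * P + 2
    | .c (.inl (.inl _)) => 2 * P + 2
    | .c (.inl (.inr c)) => 2 * (P - (c.2.1 : ℕ)) + 2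
    | .c (.inr j) => 2 * (P - (j : ℕ)) + 2
    | .c' _ => 2 * P + 2
    | .d j => 2 * (P - (j : ℕ)) + 1
  | 2 => fun
    | .a i => 2 * (i : ℕ) + 2
    | .c (.inl (.inl _)) => 1
    | .c (.inl (.inr c)) => if act c.1 c.2.1 c.2.2 then 2 * (c.1 : ℕ) + 1 else 2 * P + 3
    | .c (.inr _) => 2 * P + 3
    | .c' _ => 2 * P + 3
    | .d j => 2 * (j : ℕ) + 1
  | _ => fun
    | .a i => 2 * (P - (i : ℕ)) + 2
    | .c (.inl (.inl _)) => 1
    | .c (.inl (.inr c)) => 2 * (P - (c.1 : ℕ)) + 1
    | .c (.inr _) => 2 * P + 3
    | .c' _ => 2 * P + 3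
    | .d j => 2 * (P - (j : ℕ)) + 1

/-- four levels with switches and links -/
noncomputable def fourl (k : ℕ) :
    LevF (sYl act k) (sZl (P := P) k) (fun _ _ => True) 2 2 where
  h t q := rkl act k t q
  ne := by
    intro t p q
    fin_cases t <;>
    · rcases p with i | ((x | c) | l) | i | i <;> rcases q with j | ((y | c'') | l') | j | j <;>
        simp [piv, ty, rkl] <;> (try split_ifs) <;> (try omega) <;> exact not_false
  h2 := by
    intro t ht p q hp hq hlt
    fin_cases t
    · rcases p with i | ((x | c) | l) | i | i <;> rcases q with j | ((y | c'') | l') | j | j <;>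
        simp [piv, rkl, cond2, sZq, sZl, Fin.ext_iff] at hp hq hlt ⊢ <;> (try intro hact) <;>
        (try rw [if_pos hact] at hlt) <;> omega
    · rcases p with i | ((x | c) | l) | i | i <;> rcases q with j | ((y | c'') | l') | j | j <;>
        simp [piv, rkl, cond2, sZq, sZl, Fin.ext_iff] at hp hq hlt ⊢ <;> intros <;> omega
    · simp at ht
    · simp at ht
  h1 := by
    intro t ht p q hp hq hlt
    fin_cases t
    · simp at ht
    · simp at ht
    · rcases p with i | ((x | c) | l) | i | i <;> rcases q with j | ((y | c'') | l') | j | j <;>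
        simp [piv, rkl, cond1, sYq, sYl, Fin.ext_iff] at hp hq hlt ⊢ <;> (try intro hact) <;>
        (try rw [if_pos hact] at hlt) <;> omega
    · rcases p with i | ((x | c) | l) | i | i <;> rcases q with j | ((y | c'') | l') | j | j <;>
        simp [piv, rkl, cond1, sYq, sYl, Fin.ext_iff] at hp hq hlt ⊢ <;> intros <;> omega
  f2 := by
    intro p q h
    rcases p with i | ((x | c) | l) | i | i <;> rcases q with j | ((y | c'') | l') | j | j <;>
      first | exact (h : False).elim | skip
    · exact ⟨0, by simp, by simp [rkl]⟩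
    · exact absurd trivial h
    · have h1 : ¬ (c.2.2 = false ∧ c.2.1 = j) := h
      by_cases hb : c.2.2 = false
      · have h2 : (c.2.1 : ℕ) ≠ j := fun h' => h1 ⟨hb, Fin.ext h'⟩
        rcases lt_or_gt_of_ne h2 with h3 | h3
        · exact ⟨0, by simp, by simp [rkl, hb]; omega⟩
        · exact ⟨1, by simp, by simp [rkl]; omega⟩
      · exact ⟨0, by simp, by simp [rkl, hb]⟩
    · have h1 : ¬ (l = j) := h
      have h2 : (l : ℕ) ≠ j := fun h' => h1 (Fin.ext h')
      rcases lt_or_gt_of_ne h2 with h3 | h3
      · exact ⟨0, by simp, by simp [rkl]; omega⟩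
      · exact ⟨1, by simp, by simp [rkl]; omega⟩
  f1 := by
    intro p q h
    rcases p with i | ((x | c) | l) | i | i <;> rcases q with j | ((y | c'') | l') | j | j <;>
      first | exact (h : False).elim | skip
    · exact absurd trivial h
    · have h1 : ¬ (act c''.1 c''.2.1 c''.2.2 ∧ c''.1 = i) := h
      by_cases hb : act c''.1 c''.2.1 c''.2.2
      · have h2 : (c''.1 : ℕ) ≠ i := fun h' => h1 ⟨hb, Fin.ext h'⟩
        rcases lt_or_gt_of_ne h2 with h3 | h3
        · exact ⟨3, by simp, by simp [rkl]; omega⟩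
        · exact ⟨2, by simp, by simp [rkl, hb]; omega⟩
      · exact ⟨2, by simp, by simp [rkl, hb]⟩
    · exact ⟨2, by simp, by simp [rkl]⟩
    · exact ⟨2, by simp, by simp [rkl]⟩
    · have h1 : i ≠ j := h
      have h2 : (i : ℕ) ≠ j := fun h' => h1 (Fin.ext h')
      rcases lt_or_gt_of_ne h2 with h3 | h3
      · exact ⟨2, by simp, by simp [rkl]; omega⟩
      · exact ⟨3, by simp, by simp [rkl]; omega⟩

/-- the number of coordinates -/
lemma card_Cl (P k : ℕ) : Fintype.card (Cl P k) = k + 2 * (P * P) + P := by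
  rw [Fintype.card_sum, card_Cq, Fintype.card_fin]

/-- exchange of the two coordinates of every pair which is off -/
noncomputable def flipl (on : Fin P → Fin P → Prop) (k : ℕ) : Equiv.Perm (Cl P k) :=
  Equiv.sumCongr (SprF.flip on k) (Equiv.refl _)

/-- the relabellings: only level `2` is relabelled -/
noncomputable def taul (on : Fin P → Fin P → Prop) (k : ℕ) (t : Fin (2 + 2)) :
    Equiv.Perm (Lb (Fin P) (Cl P k)) :=
  if (t : ℕ) = 2 then rl 1 1 1 (flipl on k) else 1

lemma compat_taul (on : Fin P → Fin P → Prop) (k : ℕ) (t : Fin (2 + 2)) :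
    Compat (ty 2 t) (taul on k t) := by
  unfold taul
  split_ifs with h
  · exact compat_rl _ _ _ _ _ (fun _ => rfl) (fun _ => rfl)
  · exact compat_one _

lemma rkl_taul (on : Fin P → Fin P → Prop) (k : ℕ) (t : Fin (2 + 2))
    (q : Lb (Fin P) (Cl P k)) :
    (fourl (actOf on) k).h t (taul on k t q) = (fourl (act0 (P := P)) k).h t q := by
  show rkl (actOf on) k t (taul on k t q) = rkl act0 k t q
  fin_cases t
  · rcases q with i | ((x | c) | l) | i | i <;> simp [taul, rkl]
  · rcases q with i | ((x | c) | l) | i | i <;> simp [taul, rkl]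
  · rcases q with i | ((x | ⟨i, j, b⟩) | l) | i | i <;> simp [taul, rkl, flipl, SprF.flip]
    by_cases h : on i j <;> cases b <;> simp [actOf, act0, h]
  · rcases q with i | ((x | c) | l) | i | i <;> simp [taul, rkl]

theorem privK_iff (Sg : Fin P → Fin P → Prop) (k : ℕ) (K : Type) [Field K]
    (κ : Fin P → Fin P → K) (hκ : ∀ i, κ i i = 0) :
    OSolK K (sYl (actOf fun i j => i ≠ j ∧ ¬ Sg i j) k) (sZl (P := P) k) (fun _ _ => True) (kl k κ) ↔
      RSol K (C := Fin k) Sg κ := by
  classical
  have hsum : ∀ (Y Z : Fin P → Cl P k → K), (∀ i x, ¬ sYl (actOf fun i j => i ≠ j ∧ ¬ Sg i j) k i x →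
      Y i x = 0) → (∀ j x, ¬ sZl (P := P) k j x → Z j x = 0) → ∀ i j,
      ∑ x, (Y i x + kl k κ x i) * Z j x = ∑ x, Y i (.inl (.inl x)) * Z j (.inl (.inl x)) +
        ∑ c : Fin P × Fin P × Bool, Y i (.inl (.inr c)) * Z j (.inl (.inr c)) +
        κ i j * Z j (.inr j) := by
    intro Y Z hY hZ i j
    rw [Fintype.sum_sum_type, Fintype.sum_sum_type]
    congr 1
    · congr 1
      · exact Finset.sum_congr rfl fun x _ => by simp [kl]
      · exact Finset.sum_congr rfl fun x _ => by simp [kl]
    · rw [Finset.sum_eq_single j]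
      · rw [hY i (.inr j) (fun h => h), zero_add]
        rfl
      · intro j' _ hj'
        rw [hZ j (.inr j') (fun h => hj' h), mul_zero]
      · simp
  constructor
  · rintro ⟨Y, Z, hY, hZ, hor, hne⟩
    have h0 : ∀ i j, (i = j ∨ Sg i j) →
        ∑ c : Fin P × Fin P × Bool, Y i (.inl (.inr c)) * Z j (.inl (.inr c)) = 0 := by
      intro i j hij
      refine Finset.sum_eq_zero fun c _ => ?_
      by_cases h1 : actOf (fun i j => i ≠ j ∧ ¬ Sg i j) c.1 c.2.1 c.2.2 ∧ c.1 = i
      · by_cases h2 : c.2.2 = false ∧ c.2.1 = j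
        · exfalso
          have h3 := h1.1.1 h2.1
          rw [h1.2, h2.2] at h3
          rcases hij with h | h
          · exact h3.1 h
          · exact h3.2 h
        · rw [hZ j (.inl (.inr c)) h2, mul_zero]
      · rw [hY i (.inl (.inr c)) h1, zero_mul]
    refine ⟨fun i x => Y i (.inl (.inl x)), fun j x => Z j (.inl (.inl x)),
      fun j => Z j (.inr j), ?_, ?_⟩
    · intro i j hij hS
      have h1 := hor i j hij trivial
      rwa [hsum Y Z hY hZ, h0 i j (Or.inr hS), add_zero] at h1
    · intro i
      have h1 := hne i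
      rwa [hsum Y Z hY hZ, h0 i i (Or.inl rfl), add_zero, hκ, zero_mul, add_zero] at h1
  · rintro ⟨Y, Z, lam, hor, hne⟩
    let A : Fin P → Cq P k → Prop := sYq (actOf fun i j => i ≠ j ∧ ¬ Sg i j) k
    let B : Fin P → Cq P k → Prop := sZq (P := P) k
    let Y' : Fin P → Cl P k → K := fun i x => match x with
      | .inl (.inl x) => Y i x
      | .inl (.inr c) => if A i (.inr c) then
          -(∑ x, Y i x * Z c.2.1 x + κ i c.2.1 * lam c.2.1) else 0
      | .inr _ => 0
    let Z' : Fin P → Cl P k → K := fun j x => match x with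
      | .inl (.inl x) => Z j x
      | .inl (.inr c) => if B j (.inr c) then 1 else 0
      | .inr l => if l = j then lam j else 0
    have hY' : ∀ i x, ¬ sYl (actOf fun i j => i ≠ j ∧ ¬ Sg i j) k i x → Y' i x = 0 := by
      rintro i ((x | c) | l) h
      · exact absurd trivial h
      · exact if_neg h
      · rfl
    have hZ' : ∀ j x, ¬ sZl (P := P) k j x → Z' j x = 0 := by
      rintro j ((x | c) | l) h
      · exact absurd trivial h
      · exact if_neg h
      · exact if_neg h
    refine ⟨Y', Z', hY', hZ', ?_, ?_⟩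
    · intro i j hij _
      rw [hsum Y' Z' hY' hZ']
      show ∑ x, Y i x * Z j x + ∑ c : Fin P × Fin P × Bool,
        (if A i (.inr c) then -(∑ x, Y i x * Z c.2.1 x + κ i c.2.1 * lam c.2.1) else 0) *
        (if B j (.inr c) then 1 else 0) + κ i j * (if j = j then lam j else 0) = 0
      rw [if_pos rfl]
      by_cases hS : Sg i j
      · rw [Finset.sum_eq_zero (s := (Finset.univ : Finset (Fin P × Fin P × Bool))), add_zero]
        · exact hor i j hij hS
        · intro c _
          by_cases h1 : A i (.inr c)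
          · by_cases h2 : B j (.inr c)
            · exfalso
              have h3 := h1.1.1 h2.1
              rw [h1.2, h2.2] at h3
              exact h3.2 hS
            · rw [if_neg h2, mul_zero]
          · rw [if_neg h1, zero_mul]
      · have hA : A i (.inr (i, j, false)) := ⟨by simp [actOf, hij, hS], rfl⟩
        have hB : B j (.inr (i, j, false)) := ⟨rfl, rfl⟩
        rw [Finset.sum_eq_single (i, j, false)]
        · rw [if_pos hA, if_pos hB]
          ring
        · rintro ⟨i', j', b⟩ _ hne'
          by_cases h1 : A i (.inr (i', j', b))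
          · by_cases h2 : B j (.inr (i', j', b))
            · exfalso
              have e1 : i' = i := h1.2
              have e2 : b = false := h2.1
              have e3 : j' = j := h2.2
              subst e1 e2 e3
              exact hne' rfl
            · rw [if_neg h2, mul_zero]
          · rw [if_neg h1, zero_mul]
        · simp
    · intro i
      rw [hsum Y' Z' hY' hZ']
      show ∑ x, Y i x * Z i x + ∑ c : Fin P × Fin P × Bool,
        (if A i (.inr c) then -(∑ x, Y i x * Z c.2.1 x + κ i c.2.1 * lam c.2.1) else 0) *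
        (if B i (.inr c) then 1 else 0) + κ i i * (if i = i then lam i else 0) ≠ 0
      rw [hκ, zero_mul, add_zero,
        Finset.sum_eq_zero (s := (Finset.univ : Finset (Fin P × Fin P × Bool))), add_zero]
      · exact hne i
      · intro c _
        by_cases h1 : A i (.inr c)
        · by_cases h2 : B i (.inr c)
          · exfalso
            have h3 := h1.1.1 h2.1
            rw [h1.2, h2.2] at h3
            exact h3.1 rfl
          · rw [if_neg h2, mul_zero]
        · rw [if_neg h1, zero_mul]

end Switch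

end Pool.Agent.SprP
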