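import Pool.Agent.SprP.Defs

/-!
# From the closure on `Fin n` to matrices on labels, general `X`   (MP_3a0658_ag, helper8)
-/

set_option autoImplicit false

open Matrix

namespace Pool.Agent.SprP

open Pool.Agent.SprJ hiding S_Lay S_Tr S_An S_Cur S_Pts Lay_ex
open Pool.Agent.SprF hiding S_Lay S_Tr S_An S_Cur S_Pts

open SprF.TrAux in
theorem TrK : S_TrK := by
  intro I C _ _ _ _ sY sZ Sg m₂ m₁ n V L K _ X hcl
  set P : MvPolynomial (Fin n × Fin n) K := ∏ p ∈ Finset.range (n + 1), minor K L p with hP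
  have h1 : ¬ ∀ g ∈ Cell (X.submatrix L.idx.symm L.idx.symm) L.w,
      MvPolynomial.eval (fun p => g p.1 p.2) P = 0 := by
    intro h
    have h2 := hcl P h
    rw [hP, map_prod, Finset.prod_eq_zero_iff] at h2
    obtain ⟨p, -, h3⟩ := h2
    rw [eval_minor, minor_perm] at h3
    exact one_ne_zero h3
  push Not at h1
  obtain ⟨g, hg, hgP⟩ := h1
  obtain ⟨U, Z, B, hU, hUd, hZ, hB, hXU, hgU⟩ := label_of_cell L hg
  refine ⟨U, Z, hU, hUd, hZ, hXU, ?_⟩
  have key : ∀ p ≤ n, ((Matrix.of fun a b : {k : Lab (m₂ + m₁) I C // ((L.pos k : Fin n) : ℕ) < p} =>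
      U (sig m₂ a.1) b.1).det ≠ 0) := by
    intro p hp
    rw [hP, map_prod, Finset.prod_ne_zero_iff] at hgP
    have h2 := hgP p (Finset.mem_range.2 (by omega))
    rw [eval_minor] at h2
    have h3 : (Matrix.of fun a b : {k : Lab (m₂ + m₁) I C // ((L.pos k : Fin n) : ℕ) < p} =>
        g (L.idx (sig m₂ a.1)) (L.pos b.1)) =
        (Matrix.of fun a b : {k : Lab (m₂ + m₁) I C // ((L.pos k : Fin n) : ℕ) < p} =>
        (U * B) (sig m₂ a.1) b.1) := by
      rw [← hgU]; rfl
    rw [h3, det_mul_seg L p hB, Matrix.det_mul] at h2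
    exact left_ne_zero_of_mul h2
  intro p
  rcases le_total p n with hp | hp
  · exact key p hp
  · have h := key n le_rfl
    rw [← Matrix.det_submatrix_equiv_self (Equiv.subtypeEquivRight (p := fun k : Lab (m₂ + m₁) I C =>
      ((L.pos k : Fin n) : ℕ) < p) (q := fun k : Lab (m₂ + m₁) I C =>
      ((L.pos k : Fin n) : ℕ) < n) fun k => by
        have := (L.pos k).2; constructor <;> intro <;> omega)] at h
    exact h

end Pool.Agent.SprP
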