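import Pool.Agent.SprP.GateP
import Pool.Agent.SprP.TrK
import Pool.Agent.SprP.AnK
import Pool.Agent.SprP.CurK

/-!
# Universality with coefficients, local version (MP_3a0658_ag)   (helper8, with helper21's `LocMain`)
-/

set_option autoImplicit false

open Matrix

namespace Pool.Agent.SprP

open Pool.Agent.SprJ hiding S_Lay S_Tr S_An S_Cur S_Pts Lay_ex
open Pool.Agent.SprF hiding S_Lay S_Tr S_An S_Cur S_Pts

section Main

variable {N M g : ℕ}

lemma vE_iff (pr : Fin g → Fin N) (hpr : Function.Injective pr) (i : OSenc.Ix N M)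
    (x : OSenc.Cx N M) (l : Fin g) :
    vE pr i x = some (some l) ↔ i = .z ∧ x = some (OSenc.vr (pr l)) := by
  constructor
  · intro h
    cases i with
    | z =>
      cases x with
      | none => simp [vE] at h
      | some c =>
        by_cases h' : ∃ l', (OSenc.vr (pr l') : OSenc.Nd N M) = c
        · obtain ⟨l', rfl⟩ := h'
          rw [vE_z pr hpr l'] at h
          have h2 : l' = l := by simpa using h
          rw [h2]
          exact ⟨rfl, rfl⟩
        · simp only [vE, dif_neg h'] at h
          simp at h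
    | uc c => cases x <;> simp [vE] at h
    | _ => simp [vE] at h
  · rintro ⟨rfl, rfl⟩
    exact vE_z pr hpr l

lemma bound4P {A p q P c n : ℕ} (hA : 1 ≤ A) (hp : p ≤ 25 * A) (hq : q ≤ 3 * A) (hP : P = p + q)
    (hc : c = q + 2 * (P * P) + P) (hn : n = (2 + 2) * (3 * P + c)) : n ≤ 7000 * A ^ 2 := by
  have h1 : P ≤ 28 * A := by omega
  have h2 : P * P ≤ (28 * A) * (28 * A) := Nat.mul_le_mul h1 h1
  have h3 : A ≤ A * A := Nat.le_mul_of_pos_left A hA
  have h4 : (28 * A) * (28 * A) = 784 * (A * A) := by ring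
  have h5 : A ^ 2 = A * A := by ring
  rw [h5, hn]
  omega

/-- the places of the coefficients, on labels -/
def TL {P q : ℕ} (E : Fin P → Fin P → Option (Option (Fin g))) :
    Lab (2 + 2) (Fin P) (Cl P q) → Lab (2 + 2) (Fin P) (Cl P q) → Option (Option (Fin g))
  | (t, .c (.inr j)), (t', .a i) => if (t : ℕ) + 1 = (t' : ℕ) ∧ (t' : ℕ) = 2 then E i j else none
  | _, _ => none

lemma TL_some {P q : ℕ} {E : Fin P → Fin P → Option (Option (Fin g))}
    {l k : Lab (2 + 2) (Fin P) (Cl P q)} (h : TL E l k ≠ none) :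
    ∃ i j, l = (1, .c (.inr j)) ∧ k = (2, .a i) ∧ TL E l k = E i j := by
  obtain ⟨t, p⟩ := l
  obtain ⟨t', p'⟩ := k
  rcases p with i | (x | j) | i | i <;> rcases p' with i' | (x' | j') | i' | i' <;>
    first | exact absurd rfl h | skip
  simp only [TL] at h
  split_ifs at h with h1
  · refine ⟨i', j, ?_, ?_, ?_⟩
    · rw [show t = 1 from Fin.ext (by show (t : ℕ) = 1; omega)]
    · rw [show t' = 2 from Fin.ext (by show (t' : ℕ) = 2; omega)]
    · simp only [TL]
      rw [if_pos h1]
  · exact absurd rfl h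

lemma TL_eq {P q : ℕ} (E : Fin P → Fin P → Option (Option (Fin g))) (i j : Fin P) :
    TL (q := q) E (1, .c (.inr j)) (2, .a i) = E i j := by
  simp only [TL]
  rw [if_pos]
  exact ⟨rfl, rfl⟩

/-- **local universality with coefficients, Jordan blocks of size four** -/
theorem locMainP (N M g : ℕ) (one : Fin N) (pr : Fin g → Fin N) (hpr : Function.Injective pr) :
    ∃ (n r : ℕ) (v w : Equiv.Perm (Fin n)) (ε : Gt N M → (Fin 4 × Fin r ≃ Fin n))
      (T : Fin n → Fin n → Option (Option (Fin g))),
      n ≤ 7000 * (N + M + 1) ^ 2 ∧ (w⁻¹ * v) ^ 2 = 1 ∧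
      (∀ i j, ∃ S : Finset (Fin M), S.card ≤ 1 ∧ ∀ G G' : Gt N M, (∀ m ∈ S, G m = G' m) →
        ∀ (K : Type) [Field K], jordan K (ε G) i j = jordan K (ε G') i j) ∧
      (g = 0 → ∀ i j, T i j = none) ∧ (∀ l, ∃! p : Fin n × Fin n, T p.1 p.2 = some (some l)) ∧
      ∀ (G : Gt N M) (K : Type) [Field K] [Infinite K] (γ : Fin g → K),
        (∀ i j, T i j ≠ none → jordan K (ε G) i j = 0) ∧
        (∀ i j, j ≤ i → XT K (ε G) T γ i j = 0) ∧
        (∃ b : Matrix (Fin n) (Fin n) K, IsUnit b.det ∧
          XT K (ε G) T γ * b = b * jordan K (ε G)) ∧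
        InSpringer (XT K (ε G) T γ) (perm K v) ∧ InSpringer (XT K (ε G) T γ) (perm K w) ∧
        (InClosure (XT K (ε G) T γ) v w ↔ GSolP K G one pr γ) := by
  classical
  let p := Fintype.card (OSenc.Ix N M)
  let q := Fintype.card (OSenc.Cx N M)
  let eI : OSenc.Ix N M ≃ Fin p := Fintype.equivFin _
  let eC : OSenc.Cx N M ≃ Fin q := Fintype.equivFin _
  have hp : p = 3 * N + 25 * M + 1 := OSenc.Ix.card N M
  have hq : q = N + 3 * M + 1 := by
    show Fintype.card (OSenc.Cx N M) = _
    simp only [OSenc.Cx, OSenc.Nd, Fintype.card_option, Fintype.card_sum, Fintype.card_prod,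
      Fintype.card_fin]
    ring
  let e : Fin p ⊕ Fin q ≃ Fin (p + q) := finSumFinEquiv
  -- prescribed values
  let E0 : Fin p → Fin q → Option (Option (Fin g)) := fun i x => vE pr (eI.symm i) (eC.symm x)
  let E1 : Fin p ⊕ Fin q → Fin p ⊕ Fin q → Option (Option (Fin g)) := fun i j => match i, j with
    | .inl i, .inr x => E0 i x
    | _, _ => none
  let E : Fin (p + q) → Fin (p + q) → Option (Option (Fin g)) := fun i j =>
    E1 (e.symm i) (e.symm j)
  have hEV : ∀ (K : Type) [Field K] (γ : Fin g → K) i j,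
      kV (fun i x => val γ (E0 i x)) (e.symm i) (e.symm j) = val γ (E i j) := by
    intro K _ γ i j
    show kV (fun i x => val γ (E0 i x)) (e.symm i) (e.symm j) = val γ (E1 (e.symm i) (e.symm j))
    rcases e.symm i with i | x <;> rcases e.symm j with j | y <;> rfl
  have hEl : ∀ i j l, E i j = some (some l) ↔ i = e (.inl (eI .z)) ∧
      j = e (.inr (eC (some (OSenc.vr (pr l))))) := by
    intro i j l
    have : E1 (e.symm i) (e.symm j) = some (some l) ↔ e.symm i = .inl (eI .z) ∧
        e.symm j = .inr (eC (some (OSenc.vr (pr l)))) := by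
      rcases e.symm i with i | x <;> rcases e.symm j with j | y
      · simp [E1]
      · simp only [E1, E0, vE_iff pr hpr, Sum.inl.injEq, Sum.inr.injEq, Equiv.symm_apply_eq]
      · simp [E1]
      · simp [E1]
    rw [← Equiv.symm_apply_eq, ← Equiv.symm_apply_eq]
    exact this
  have hE0 : g = 0 → ∀ i j, E i j = none := by
    intro hg i j
    have hno : ∀ l : Fin g, False := fun l => by have := l.2; omega
    show E1 (e.symm i) (e.symm j) = none
    rcases e.symm i with i | x <;> rcases e.symm j with j | y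
    · rfl
    · show vE pr (eI.symm i) (eC.symm y) = none
      cases eI.symm i with
      | z =>
        cases eC.symm y with
        | none => simp [vE, hg]
        | some c =>
          simp only [vE]
          rw [dif_neg]
          rintro ⟨l, -⟩
          exact hno l
      | uc c =>
        cases eC.symm y with
        | none =>
          simp only [vE]
          rw [if_neg]
          rintro ⟨l, -⟩
          exact hno l
        | some c' =>
          simp only [vE]
          rw [if_neg]
          rintro ⟨-, l, -⟩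
          exact hno l
      | _ => simp [vE]
    · rfl
    · rfl
  -- relations
  let R : Gt N M → Fin p ⊕ Fin q → Fin p ⊕ Fin q → Prop := fun G =>
    SgV (fun i x => OSenc.sY G (eI.symm i) (eC.symm x))
      (fun i x => OSenc.sZ G (eI.symm i) (eC.symm x))
      (fun i j => OSenc.Sg G one (eI.symm i) (eI.symm j)) (fun i x => E0 i x ≠ none)
  let S : Gt N M → Fin (p + q) → Fin (p + q) → Prop := fun G i j => R G (e.symm i) (e.symm j)
  let on : Gt N M → Fin (p + q) → Fin (p + q) → Prop := fun G i j => i ≠ j ∧ ¬ S G i j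
  have hloc : ∀ i j, Loc1 fun G => on G i j := by
    intro i j
    have : Loc1 fun G => R G (e.symm i) (e.symm j) := by
      rcases e.symm i with i | x <;> rcases e.symm j with j | y
      · exact loc_Sg one _ _
      · exact (loc_sY (eI.symm i) (eC.symm y)).comp fun A => ¬ A ∨ E0 i y ≠ none
      · exact (loc_sZ (eI.symm j) (eC.symm x)).comp Not
      · exact loc_const fun _ _ => rfl
    exact this.comp fun A => i ≠ j ∧ ¬ A
  let V0 := fourl (act0 (P := p + q)) q
  let V : (G : Gt N M) → LevF (sYl (actOf (on G)) q) (sZl (P := p + q) q) (fun _ _ => True) 2 2 :=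
    fun G => fourl (actOf (on G)) q
  obtain ⟨L0⟩ := Lay_ex (Fin (p + q)) (Cl (p + q) q) _ _ _ 2 2
    ((2 + 2) * (3 * (p + q) + Fintype.card (Cl (p + q) q))) V0 (by simp only [Fintype.card_fin])
  let L : (G : Gt N M) → LayF (V G) _ := fun G =>
    locLay L0 (V G) (taul (on G) q) (compat_taul _ _) (rkl_taul _ _)
  have hLv : ∀ G, (L G).v = L0.v := fun G => locLay_v _ _ _ _ _
  have hLw : ∀ G, (L G).w = L0.w := fun G => locLay_w _ _ _ _ _
  let tb : Lb (Fin (p + q)) (Cl (p + q) q) ≃
      Fin (Fintype.card (Lb (Fin (p + q)) (Cl (p + q) q))) := Fintype.equivFin _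
  have htau : ∀ (t : Fin (2 + 2)) (x : Lb (Fin (p + q)) (Cl (p + q) q)), (t : ℕ) = 2 →
      Loc1 fun G => taul (on G) q t x := by
    intro t x ht
    rcases x with i | ((x | ⟨i, j, b⟩) | l) | i | i
    · exact loc_const fun G G' => by simp [taul, ht]
    · exact loc_const fun G G' => by simp [taul, ht, flipl, SprF.flip]
    · obtain ⟨T, hT, h⟩ := hloc i j
      refine ⟨T, hT, fun G G' hG => ?_⟩
      have h1 : on G i j = on G' i j := h G G' hG
      simp [taul, ht, flipl, SprF.flip, h1]
    · exact loc_const fun G G' => by simp [taul, ht, flipl, SprF.flip]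
    · exact loc_const fun G G' => by simp [taul, ht]
    · exact loc_const fun G G' => by simp [taul, ht]
  have htau' : ∀ (t : Fin (2 + 2)) (x : Lb (Fin (p + q)) (Cl (p + q) q)), (t : ℕ) ≠ 2 →
      ∀ G : Gt N M, taul (on G) q t x = x := by
    intro t x ht G
    simp [taul, ht]
  let T : Fin _ → Fin _ → Option (Option (Fin g)) := fun a b =>
    TL (q := q) E (L0.idx.symm a) (L0.idx.symm b)
  -- the coefficient matrix
  have hNK : ∀ (G : Gt N M) (K : Type) [Field K] (γ : Fin g → K) a b,
      NK 2 (2 + 2) (kl q fun i j => val γ (E i j)) ((L G).idx.symm a) ((L G).idx.symm b) =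
        val γ (T a b) := by
    intro G K _ γ a b
    show NK 2 (2 + 2) (kl q fun i j => val γ (E i j))
      ((L0.idx.symm a).1, taul (on G) q (L0.idx.symm a).1 (L0.idx.symm a).2)
      ((L0.idx.symm b).1, taul (on G) q (L0.idx.symm b).1 (L0.idx.symm b).2) =
        val γ (TL (q := q) E (L0.idx.symm a) (L0.idx.symm b))
    obtain ⟨t, x⟩ := L0.idx.symm a
    obtain ⟨t', y⟩ := L0.idx.symm b
    by_cases h : (t : ℕ) + 1 = (t' : ℕ) ∧ (t' : ℕ) = 2
    · have e1 : NK 2 (2 + 2) (kl q fun i j => val γ (E i j)) (t, taul (on G) q t x)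
          (t', taul (on G) q t' y) = kp (kl q fun i j => val γ (E i j)) x (taul (on G) q t' y) := by
        simp only [NK]
        rw [if_pos h, htau' t x (by omega)]
      show NK 2 (2 + 2) (kl q fun i j => val γ (E i j)) (t, taul (on G) q t x)
          (t', taul (on G) q t' y) = _
      rw [e1]
      rcases x with i | (x | j) | i | i <;> rcases y with i' | (x' | j') | i' | i' <;>
        simp [kp, taul, h, TL, val, kl]
    · have e1 : NK 2 (2 + 2) (kl q fun i j => val γ (E i j)) (t, taul (on G) q t x)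
          (t', taul (on G) q t' y) = 0 := by
        simp only [NK]
        rw [if_neg h]
      show NK 2 (2 + 2) (kl q fun i j => val γ (E i j)) (t, taul (on G) q t x)
          (t', taul (on G) q t' y) = _
      rw [e1]
      rcases x with i | (x | j) | i | i <;> rcases y with i' | (x' | j') | i' | i' <;>
        simp [TL, val, h]
  have hX : ∀ (G : Gt N M) (K : Type) [Field K] (γ : Fin g → K),
      XT K ((L G).eps tb) T γ = (XK 2 (2 + 2) (kl q fun i j => val γ (E i j))).submatrix
        (L G).idx.symm (L G).idx.symm := by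
    intro G K _ γ
    ext a b
    rw [XT, Matrix.add_apply, TrAux.jordan_eq, Matrix.submatrix_apply, Matrix.submatrix_apply, XK,
      Matrix.add_apply, hNK]
    rfl
  refine ⟨_, _, L0.v, L0.w, fun G => (L G).eps tb, T, ?_, ?_, ?_, ?_, ?_, ?_⟩
  · exact bound4P (A := N + M + 1) (by omega) (by omega) (by omega) rfl (card_Cl (p + q) q) rfl
  · exact (Pts (Fin (p + q)) (Cl (p + q) q) _ _ _ 2 2 _ _ V0 L0 tb ℚ).1
  · intro i j
    set a := L0.idx.symm i with ha
    set b := L0.idx.symm j with hb
    have hX : ∀ (G : Gt N M) (K : Type) [Field K], jordan K ((L G).eps tb) i j =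
        if (a.1 : ℕ) + 1 = (b.1 : ℕ) ∧ taul (on G) q a.1 a.2 = taul (on G) q b.1 b.2
        then 1 else 0 := by
      intro G K _
      simp only [jordan, Matrix.of_apply, L, locLay_eps_symm, ← ha, ← hb,
        EmbeddingLike.apply_eq_iff_eq]
    by_cases hab : (a.1 : ℕ) + 1 = (b.1 : ℕ)
    · by_cases ha2 : (a.1 : ℕ) = 2
      · obtain ⟨T, hT, h⟩ := htau a.1 a.2 ha2
        refine ⟨T, hT, fun G G' hG K _ => ?_⟩
        have h' : taul (on G) q a.1 a.2 = taul (on G') q a.1 a.2 := h G G' hG
        rw [hX, hX, h', htau' b.1 b.2 (by omega), htau' b.1 b.2 (by omega)]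
      · by_cases hb2 : (b.1 : ℕ) = 2
        · obtain ⟨T, hT, h⟩ := htau b.1 b.2 hb2
          refine ⟨T, hT, fun G G' hG K _ => ?_⟩
          have h' : taul (on G) q b.1 b.2 = taul (on G') q b.1 b.2 := h G G' hG
          rw [hX, hX, h', htau' a.1 a.2 ha2, htau' a.1 a.2 ha2]
        · refine ⟨∅, by simp, fun G G' hG K _ => ?_⟩
          rw [hX, hX, htau' a.1 a.2 ha2, htau' a.1 a.2 ha2, htau' b.1 b.2 hb2, htau' b.1 b.2 hb2]
    · refine ⟨∅, by simp, fun G G' _ K _ => ?_⟩
      rw [hX, hX, if_neg (fun h => hab h.1), if_neg (fun h => hab h.1)]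
  · intro hg a b
    by_contra h
    obtain ⟨i, j, -, -, h3⟩ := TL_some (E := E) h
    exact h (h3.trans (hE0 hg i j))
  · intro l
    refine ⟨(L0.idx (1, .c (.inr (e (.inr (eC (some (OSenc.vr (pr l)))))))),
      L0.idx (2, .a (e (.inl (eI .z))))), ?_, ?_⟩
    · show TL (q := q) E (L0.idx.symm _) (L0.idx.symm _) = some (some l)
      rw [Equiv.symm_apply_apply, Equiv.symm_apply_apply, TL_eq, hEl]
      exact ⟨rfl, rfl⟩
    · rintro ⟨a, b⟩ h
      have h' : TL (q := q) E (L0.idx.symm a) (L0.idx.symm b) = some (some l) := h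
      obtain ⟨i, j, h1, h2, h3⟩ := TL_some (E := E) (by rw [h']; simp)
      rw [h'] at h3
      obtain ⟨rfl, rfl⟩ := (hEl i j l).1 h3.symm
      rw [Equiv.symm_apply_eq] at h1 h2
      rw [h1, h2]
  · intro G K _ _ γ
    have hXK := hX G K γ
    obtain ⟨h1, h2, h3, h4⟩ := PtsK (Fin (p + q)) (Cl (p + q) q) _ _ _ 2 2 _ (V G) (L G) K
      (kl q fun i j => val γ (E i j))
    rw [← hXK] at h1 h2 h3 h4
    rw [hLv] at h2
    rw [hLw] at h3
    refine ⟨?_, h1, ?_, h2, h3, ?_⟩
    · intro a b h
      obtain ⟨i, j, e1, e2, -⟩ := TL_some (E := E) h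
      have e3 : ((L G).idx.symm a) = (1, .c (.inr j)) := by
        show ((L0.idx.symm a).1, taul (on G) q (L0.idx.symm a).1 (L0.idx.symm a).2) = _
        rw [e1, htau' _ _ (by norm_num)]
      have e4 : ((L G).idx.symm b) = (2, .a i) := by
        show ((L0.idx.symm b).1, taul (on G) q (L0.idx.symm b).1 (L0.idx.symm b).2) = _
        rw [e2]
        simp [taul]
      rw [TrAux.jordan_eq, Matrix.submatrix_apply, e3, e4]
      simp [XL]
    · obtain ⟨b, hb, hb'⟩ := h4
      refine ⟨b, hb, ?_⟩
      rw [hb', TrAux.jordan_eq]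
    · have key : OSolK K (sYl (actOf (on G)) q) (sZl (P := p + q) q) (fun _ _ => True)
          (kl q fun i j => val γ (E i j)) ↔ GSolP K G one pr γ := by
        refine (privK_iff (S G) q K (fun i j => val γ (E i j)) ?_).trans ?_
        · intro i
          rw [← hEV]
          rcases e.symm i with i | x <;> rfl
        · have h5 : (fun i j => val γ (E i j)) =
              fun i j => kV (fun i x => val γ (E0 i x)) (e.symm i) (e.symm j) := by
            funext i j
            exact (hEV K γ i j).symm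
          rw [h5]
          refine (RSol_equiv e (R G) (kV fun i x => val γ (E0 i x))).trans ?_
          refine (fullK_iff K _ _ _ _ _ ?_).trans ?_
          · intro i x h
            show val γ (vE pr (eI.symm i) (eC.symm x)) = 0
            rw [vE_supp pr G _ _ h]
            rfl
          · exact (VSol_equiv eI eC (OSenc.sY G) (OSenc.sZ G) (OSenc.Sg G one)
              (fun i x => vE pr i x ≠ none) (fun i x => val γ (vE pr i x))).trans
                (OSP G one pr hpr K γ)
      rw [← key, ← hLv G, ← hLw G, hXK]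
      constructor
      · intro h
        obtain ⟨U, Z, a1, a2, a3, a4, a5⟩ := TrK (Fin (p + q)) (Cl (p + q) q) _ _ _ 2 2 _ (V G)
          (L G) K _ h
        exact AnK (Fin (p + q)) (Cl (p + q) q) _ _ _ 2 2 _ (V G) (L G) K _ (by norm_num)
          (by norm_num) U Z a1 a2 a3 a4 a5
      · intro h
        exact CurK (Fin (p + q)) (Cl (p + q) q) _ _ _ 2 2 _ (V G) (L G) K _ h

end Main

end Pool.Agent.SprP
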