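import Pool.Agent.SprP.Link

/-!
# Gate systems with parameters are orthogonality systems with prescribed values
(MP_3a0658_ag)   (helper8)
-/

set_option autoImplicit false

namespace Pool.Agent.SprP

open Pool.Agent.SprJ hiding S_Lay S_Tr S_An S_Cur S_Pts Lay_ex
open Pool.Agent.SprF hiding S_Lay S_Tr S_An S_Cur S_Pts

open Classical in
/-- the prescribed values -/
noncomputable def vE {N M g : ℕ} (pr : Fin g → Fin N) :
    OSenc.Ix N M → OSenc.Cx N M → Option (Option (Fin g))
  | .z, none => if 0 < g then some none else none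
  | .z, some c => if h : ∃ l, OSenc.vr (pr l) = c then some (some h.choose) else none
  | .uc c, none => if ∃ l, OSenc.vr (pr l) = c then some none else none
  | .uc c, some c' => if c = c' ∧ ∃ l, OSenc.vr (pr l) = c then some none else none
  | _, _ => none

lemma vE_z {N M g : ℕ} (pr : Fin g → Fin N) (hpr : Function.Injective pr) (l : Fin g) :
    vE (M := M) pr .z (some (OSenc.vr (pr l))) = some (some l) := by
  have h : ∃ l', (OSenc.vr (pr l') : OSenc.Nd N M) = OSenc.vr (pr l) := ⟨l, rfl⟩
  simp only [vE, dif_pos h]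
  congr 2
  exact hpr (Sum.inl.inj h.choose_spec)

lemma vE_supp {N M g : ℕ} (pr : Fin g → Fin N) (G : Gt N M) (i : OSenc.Ix N M) (x : OSenc.Cx N M)
    (h : ¬ OSenc.sY G i x) : vE pr i x = none := by
  cases i with
  | z => exact absurd trivial h
  | uc c =>
    cases x with
    | none => exact absurd (Or.inl rfl) h
    | some c' =>
      simp only [vE]
      rw [if_neg]
      rintro ⟨rfl, -⟩
      exact h (Or.inr rfl)
  | _ => simp [vE]

theorem OSP {N M g : ℕ} (G : Gt N M) (one : Fin N) (pr : Fin g → Fin N)
    (hpr : Function.Injective pr) (K : Type) [Field K] (γ : Fin g → K) :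
    VSol K (OSenc.sY G) (OSenc.sZ G) (OSenc.Sg G one) (fun i x => vE pr i x ≠ none)
      (fun i x => val γ (vE pr i x)) ↔ GSolP K G one pr γ := by
  constructor
  · rintro ⟨Y, Z, lam, hY, hZ, hS, hD, hv'⟩
    have hv : ∀ i x, vE pr i x ≠ none → Y i x + val γ (vE pr i x) * lam x = 0 := hv'
    obtain ⟨x, ⟨h1, hg⟩, hz, hx⟩ := OSenc.forwardE G one hY hZ hS hD
    refine ⟨x, h1, fun l => ?_, hg⟩
    obtain ⟨τ, hτ, hu, hzx⟩ := hx (pr l)
    have hex : ∃ l', (OSenc.vr (pr l') : OSenc.Nd N M) = OSenc.vr (pr l) := ⟨l, rfl⟩
    have hg0 : 0 < g := by have := l.2; omega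
    have e1 : vE (M := M) pr .z none = some none := by simp [vE, hg0]
    have e2 : vE (M := M) pr .z (some (OSenc.vr (pr l))) = some (some l) := vE_z pr hpr l
    have e3 : vE (M := M) pr (.uc (OSenc.vr (pr l))) none = some none := by
      simp only [vE]; rw [if_pos hex]
    have e4 : vE (M := M) pr (.uc (OSenc.vr (pr l))) (some (OSenc.vr (pr l))) = some none := by
      simp only [vE]; rw [if_pos ⟨trivial, hex⟩]
    have v1 := hv .z none (by rw [e1]; simp)
    have v2 := hv .z (some (OSenc.vr (pr l))) (by rw [e2]; simp)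
    have v3 := hv (.uc (OSenc.vr (pr l))) none (by rw [e3]; simp)
    have v4 := hv (.uc (OSenc.vr (pr l))) (some (OSenc.vr (pr l))) (by rw [e4]; simp)
    rw [e1] at v1
    rw [e2] at v2
    rw [e3] at v3
    rw [e4] at v4
    simp only [val, one_mul] at v1 v2 v3 v4
    -- `Y_z(o) = Y_u(o) = - lam o`, `Y_z(c) = - γ lam c`, `Y_u(c) = - lam c`
    have f1 : Y (.uc (OSenc.vr (pr l))) none = Y .z none := by linear_combination v3 - v1
    rw [f1] at hu
    have f2 : (x (pr l) - γ l) * (τ * Y .z none) = 0 := by
      linear_combination (-1 : K) * hzx + γ l * hu + v2 - γ l * v4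
    exact sub_eq_zero.1 ((mul_eq_zero.1 f2).resolve_right (mul_ne_zero hτ hz))
  · rintro ⟨x, h1, hp, hg⟩
    let ζ : OSenc.Nd N M → K := fun c => match c with
      | Sum.inl i => x i
      | Sum.inr (g, 0) => x (G g).2.1
      | Sum.inr (g, 1) => x (G g).2.2.1
      | Sum.inr (g, 2) => x (G g).2.2.2
    obtain ⟨a1, a2, a3, a4⟩ := OSenc.backwardE G one ζ h1 (by
      intro g s hs
      fin_cases s
      · rfl
      · rfl
      · rfl
      · simp at hs
      · simp at hs) (fun g => hg g)
    refine ⟨OSenc.YY G ζ, OSenc.ZZ G ζ, fun _ => -1, a1, a2, a3, a4, ?_⟩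
    intro i y h'
    have h : vE pr i y ≠ none := h'
    clear h'
    show OSenc.YY G ζ i y + val γ (vE pr i y) * -1 = 0
    cases i with
    | z =>
      cases y with
      | none =>
        have h0 : vE (M := M) pr .z none = some none := by
          simp only [vE] at h ⊢
          split_ifs at h ⊢ with h2
          · rfl
          · exact absurd rfl h
        rw [h0]
        simp [val, OSenc.YY]
      | some c =>
        have h0 : ∃ l, OSenc.vr (pr l) = c := by
          by_contra h'
          exact h (by simp only [vE, dif_neg h'])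
        obtain ⟨l, rfl⟩ := h0
        rw [vE_z pr hpr l]
        show ζ (OSenc.vr (pr l)) + γ l * -1 = 0
        show x (pr l) + γ l * -1 = 0
        rw [hp l]; ring
    | uc c =>
      cases y with
      | none =>
        have h0 : vE (M := M) pr (.uc c) none = some none := by
          simp only [vE] at h ⊢
          split_ifs at h ⊢ with h2
          · rfl
          · exact absurd rfl h
        rw [h0]
        simp [val, OSenc.YY]
      | some c' =>
        have h0 : c = c' ∧ vE (M := M) pr (.uc c) (some c') = some none := by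
          simp only [vE] at h ⊢
          split_ifs at h ⊢ with h2
          · exact ⟨h2.1, rfl⟩
          · exact absurd rfl h
        rw [h0.2]
        obtain ⟨rfl, -⟩ := h0
        simp [val, OSenc.YY]
    | _ => exact absurd rfl h

end Pool.Agent.SprP
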