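import Pool.Agent.SprP.Defs

/-!
# `X_κ` is strictly upper triangular, `vB, wB ∈ S_X`, Jordan form   (MP_3a0658_ag, helper8)
-/

set_option autoImplicit false

open Matrix

namespace Pool.Agent.SprP

open Pool.Agent.SprJ hiding S_Lay S_Tr S_An S_Cur S_Pts Lay_ex
open Pool.Agent.SprF hiding S_Lay S_Tr S_An S_Cur S_Pts

section

variable {I C : Type} [DecidableEq I] [DecidableEq C]
  {sY sZ : I → C → Prop} {Sg : I → I → Prop} {m₂ m₁ : ℕ} {V : LevF sY sZ Sg m₂ m₁} {n : ℕ}

omit [DecidableEq I] [DecidableEq C] in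
lemma NK_ne_zero {K : Type} [Field K] {m₂ m : ℕ} {κ : C → I → K} {l k : Lab m I C}
    (h : NK m₂ m κ l k ≠ 0) : (l.1 : ℕ) + 1 = (k.1 : ℕ) ∧ (k.1 : ℕ) = m₂ ∧
      (∃ x, l.2 = .c x) ∧ ∃ i, k.2 = .a i := by
  simp only [NK] at h
  split_ifs at h with h1
  · refine ⟨h1.1, h1.2, ?_⟩
    revert h
    cases l.2 <;> cases k.2 <;> simp [kp]
  · exact absurd rfl h

lemma XK_pos (L : LayF V n) (K : Type) [Field K] (κ : C → I → K) (l k : Lab (m₂ + m₁) I C)
    (hlk : L.pos k < L.pos l) : XK m₂ (m₂ + m₁) κ l k = 0 := by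
  rw [XK, Matrix.add_apply, pts_XL_pos L K l k hlk, zero_add]
  by_contra h
  obtain ⟨h1, h2, ⟨x, hx⟩, ⟨i, hi⟩⟩ := NK_ne_zero h
  refine absurd (pts_pos L (l := l) (k := k) (by omega) ?_) (not_lt.2 hlk.le)
  intro _
  have : ty m₂ l.1 = true := by simp only [ty, decide_eq_true_eq]; omega
  unfold early
  rw [this, hx]
  trivial

lemma XK_pos_sig (L : LayF V n) (K : Type) [Field K] (κ : C → I → K) (l k : Lab (m₂ + m₁) I C)
    (hlk : L.pos k < L.pos l) : XK m₂ (m₂ + m₁) κ (sig m₂ l) (sig m₂ k) = 0 := by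
  rw [XK, Matrix.add_apply, pts_XL_pos_sig L K l k hlk, zero_add]
  by_contra h
  obtain ⟨h1, h2, ⟨x, hx⟩, ⟨i, hi⟩⟩ := NK_ne_zero h
  have h1' : (l.1 : ℕ) + 1 = (k.1 : ℕ) := h1
  have h2' : (k.1 : ℕ) = m₂ := h2
  have e1 : ty m₂ l.1 = true := by simp only [ty, decide_eq_true_eq]; omega
  have hx' : sg (ty m₂ l.1) l.2 = .c x := hx
  refine absurd (pts_pos L (l := l) (k := k) (by omega) ?_) (not_lt.2 hlk.le)
  intro _
  unfold early
  rw [e1] at hx' ⊢
  have h3 := congrArg (sg true) hx'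
  rw [sg_sg] at h3
  rw [h3]
  trivial

end

theorem PtsK : S_PtsK := by
  intro I C _ _ _ _ sY sZ Sg m₂ m₁ n V L K _ κ
  refine ⟨?_, ?_, ?_, ?_⟩
  · intro i j hij
    rw [Matrix.submatrix_apply]
    by_contra h
    have h1 : ((L.idx.symm i).1 : ℕ) + 1 = ((L.idx.symm j).1 : ℕ) := by
      rw [XK, Matrix.add_apply] at h
      by_cases h0 : XL K (m₂ + m₁) I C (L.idx.symm i) (L.idx.symm j) = 0
      · rw [h0, zero_add] at h
        exact (NK_ne_zero h).1
      · exact (pts_XL_ne_zero h0).1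
    have h2 : L.idx (L.idx.symm i) < L.idx (L.idx.symm j) := by
      apply L.i1
      show ((L.idx.symm i).1 : ℕ) < ((L.idx.symm j).1 : ℕ)
      omega
    rw [Equiv.apply_symm_apply, Equiv.apply_symm_apply] at h2
    exact absurd h2 (not_lt.2 hij)
  · apply pts_inSpringer_of_mul (pts_det_perm_isUnit _)
      (Y := Matrix.of fun i j => XK m₂ (m₂ + m₁) κ (sig m₂ (L.pos.symm i))
        (sig m₂ (L.pos.symm j)))
    · ext i k
      rw [Matrix.mul_apply, Matrix.mul_apply]
      simp only [Matrix.submatrix_apply, perm, Matrix.of_apply, mul_ite, mul_one, mul_zero,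
        ite_mul, one_mul, zero_mul]
      rw [Finset.sum_ite_eq' Finset.univ (L.v k), if_pos (Finset.mem_univ _)]
      rw [Finset.sum_eq_single (L.v⁻¹ i)]
      · simp [LayF.v, Lay.sigE, sig_sig]
      · intro j _ hj
        rw [if_neg]
        rintro rfl
        exact hj (by simp)
      · simp
    · intro i j hij
      exact XK_pos_sig L K κ _ _ (by simpa using hij)
  · apply pts_inSpringer_of_mul (pts_det_perm_isUnit _)
      (Y := Matrix.of fun i j => XK m₂ (m₂ + m₁) κ (L.pos.symm i) (L.pos.symm j))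
    · ext i k
      rw [Matrix.mul_apply, Matrix.mul_apply]
      simp only [Matrix.submatrix_apply, perm, Matrix.of_apply, mul_ite, mul_one, mul_zero,
        ite_mul, one_mul, zero_mul]
      rw [Finset.sum_ite_eq' Finset.univ (L.w k), if_pos (Finset.mem_univ _)]
      rw [Finset.sum_eq_single (L.w⁻¹ i)]
      · simp [LayF.w]
      · intro j _ hj
        rw [if_neg]
        rintro rfl
        exact hj (by simp)
      · simp
    · intro i j hij
      exact XK_pos L K κ _ _ (by simpa using hij)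
  · -- conjugation
    let N' : Matrix (Lab (m₂ + m₁) I C) (Lab (m₂ + m₁) I C) K :=
      fun l k => if l.1 = k.1 ∧ (k.1 : ℕ) < m₂ then kp κ l.2 k.2 else 0
    have hNN : N' * N' = 0 := by
      ext l k
      rw [Matrix.mul_apply]
      refine Finset.sum_eq_zero fun j _ => ?_
      show (if l.1 = j.1 ∧ (j.1 : ℕ) < m₂ then kp κ l.2 j.2 else 0) *
        (if j.1 = k.1 ∧ (k.1 : ℕ) < m₂ then kp κ j.2 k.2 else 0) = 0
      split_ifs <;> cases l.2 <;> cases j.2 <;> cases k.2 <;> simp [kp]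
    have hNkN : NK m₂ (m₂ + m₁) κ * N' = 0 := by
      ext l k
      rw [Matrix.mul_apply]
      refine Finset.sum_eq_zero fun j _ => ?_
      show (if (l.1 : ℕ) + 1 = (j.1 : ℕ) ∧ (j.1 : ℕ) = m₂ then kp κ l.2 j.2 else 0) *
        (if j.1 = k.1 ∧ (k.1 : ℕ) < m₂ then kp κ j.2 k.2 else 0) = 0
      split_ifs <;> cases l.2 <;> cases j.2 <;> cases k.2 <;> simp [kp]
    have hcomm : NK m₂ (m₂ + m₁) κ + XL K (m₂ + m₁) I C * N' = N' * XL K (m₂ + m₁) I C := by
      ext ⟨t, p⟩ ⟨t', q⟩
      have e1 : (XL K (m₂ + m₁) I C * N') (t, p) (t', q) =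
          if (t : ℕ) + 1 = (t' : ℕ) ∧ (t' : ℕ) < m₂ then kp κ p q else 0 := by
        rw [Matrix.mul_apply, Finset.sum_eq_single (t', p)]
        · simp only [XL, N']
          by_cases h1 : (t : ℕ) + 1 = (t' : ℕ) <;> by_cases h2 : (t' : ℕ) < m₂ <;> simp [h1, h2]
        · rintro ⟨s, r⟩ _ hne
          simp only [XL, N']
          by_cases h1 : s = t'
          · have h2 : p ≠ r := fun h => hne (by rw [h1, h])
            simp [h2]
          · simp [h1]
        · simp
      have e2 : (N' * XL K (m₂ + m₁) I C) (t, p) (t', q) =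
          if (t : ℕ) + 1 = (t' : ℕ) ∧ (t : ℕ) < m₂ then kp κ p q else 0 := by
        rw [Matrix.mul_apply, Finset.sum_eq_single (t, q)]
        · simp only [XL, N']
          by_cases h1 : (t : ℕ) + 1 = (t' : ℕ) <;> by_cases h2 : (t : ℕ) < m₂ <;> simp [h1, h2]
        · rintro ⟨s, r⟩ _ hne
          simp only [XL, N']
          by_cases h1 : t = s
          · have h2 : r ≠ q := fun h => hne (by rw [h1, h])
            simp [h2]
          · simp [h1]
        · simp
      rw [Matrix.add_apply, e1, e2]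
      simp only [NK]
      by_cases h1 : (t : ℕ) + 1 = (t' : ℕ)
      · by_cases h2 : (t' : ℕ) = m₂
        · rw [if_pos ⟨h1, h2⟩, if_neg (fun h => by omega), if_pos ⟨h1, by omega⟩, add_zero]
        · by_cases h3 : (t' : ℕ) < m₂
          · rw [if_neg (fun h => h2 h.2), if_pos ⟨h1, h3⟩, if_pos ⟨h1, by omega⟩, zero_add]
          · rw [if_neg (fun h => h2 h.2), if_neg (fun h => h3 h.2), if_neg (fun h => by omega),
              zero_add]
      · rw [if_neg (fun h => h1 h.1), if_neg (fun h => h1 h.1), if_neg (fun h => h1 h.1), zero_add]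
    have hconj : XK m₂ (m₂ + m₁) κ * (1 + N') = (1 + N') * XL K (m₂ + m₁) I C := by
      rw [XK, Matrix.add_mul, Matrix.mul_add, Matrix.mul_add, Matrix.mul_one, Matrix.mul_one, hNkN,
        Matrix.add_mul, Matrix.one_mul, ← hcomm]
      abel
    have hinv : (1 - N') * (1 + N') = 1 := by
      rw [Matrix.sub_mul, Matrix.mul_add, Matrix.mul_add, hNN]
      simp
    have hunit : IsUnit (1 + N').det := by
      apply IsUnit.of_mul_eq_one_right (a := (1 - N').det)
      rw [← Matrix.det_mul, hinv, Matrix.det_one]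
    refine ⟨(1 + N').submatrix L.idx.symm L.idx.symm, ?_, ?_⟩
    · rw [Matrix.det_submatrix_equiv_self]
      exact hunit
    · rw [Matrix.submatrix_mul_equiv, Matrix.submatrix_mul_equiv, hconj]

end Pool.Agent.SprP
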